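import Pool.Agent.W_MP_d15038_co.Cut

set_option autoImplicit false
set_option linter.unusedSectionVars false

namespace Pool.Agent.W_MP_d15038_co

open Finset SimpleGraph
open scoped Classical

variable {V : Type*} [Fintype V] [DecidableEq V]

/-- sets of size `j` containing the star of `x` -/
noncomputable def starSets (E : Finset (Sym2 V)) (j : ℕ) (x : V) : Finset (Finset (Sym2 V)) :=
  (E.powersetCard j).filter fun T => bd E {x} ⊆ T

/-- number of pairs of vertices with four crossing edges in `H` -/
noncomputable def Qset (H : SimpleGraph V) : Finset (Finset V) :=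
  ((univ : Finset V).powersetCard 2).filter fun P => (bd H.edgeFinset P).card = 4

lemma disc_upper {E : Finset (Sym2 V)} {H : SimpleGraph V} (hco : IsCo E H)
    (hn : 6 ≤ Fintype.card V) (hd : H.edgeFinset.card + 2 ≤ Fintype.card V)
    (hdeg : ∀ x, (H.neighborFinset x).card ≤ 2) (j : ℕ) (hj : j + 8 ≤ 2 * Fintype.card V) :
    (disc E j).card ≤ ∑ x, (starSets E j x).card
      + (if j + 8 = 2 * Fintype.card V then (Qset H).card else 0) := by
  have hne : Nonempty V := Fintype.card_pos_iff.mp (by omega)
  have hsub : disc E j ⊆ (univ.biUnion (starSets E j)) ∪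
      (if j + 8 = 2 * Fintype.card V then (Qset H).image (bd E) else ∅) := by
    intro T hT
    simp only [disc, mem_filter, mem_powersetCard] at hT
    obtain ⟨⟨hTE, hTj⟩, hdisc⟩ := hT
    rw [disc_sdiff_iff] at hdisc
    obtain ⟨X, hX, hXc, hbd⟩ := hdisc
    -- reduce to |X| ≤ |Xᶜ|
    have key : ∀ X : Finset V, X.Nonempty → X.card ≤ Xᶜ.card → bd E X ⊆ T →
        T ∈ (univ.biUnion (starSets E j)) ∪
          (if j + 8 = 2 * Fintype.card V then (Qset H).image (bd E) else ∅) := by
      intro X hX hle hbd
      have hcc : X.card + Xᶜ.card = Fintype.card V := Finset.card_add_card_compl X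
      have hco' := hco.card_bd X
      have hcE : (bd E X).card ≤ j := by rw [← hTj]; exact Finset.card_le_card hbd
      have hH : (bd H.edgeFinset X).card ≤ H.edgeFinset.card :=
        Finset.card_le_card (bd_subset _ _)
      have hX1 : 1 ≤ X.card := hX.card_pos
      have hX3 : X.card < 3 := by
        by_contra hcon
        push Not at hcon
        have : 3 * (Fintype.card V - 3) ≤ X.card * Xᶜ.card := by
          obtain ⟨a, ha⟩ : ∃ a, X.card = 3 + a := ⟨X.card - 3, by omega⟩
          obtain ⟨b, hb⟩ : ∃ b, Xᶜ.card = 3 + b := ⟨Xᶜ.card - 3, by omega⟩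
          rw [ha, hb]
          have : Fintype.card V - 3 = 3 + a + b := by omega
          rw [this]
          nlinarith [Nat.zero_le (a * b)]
        omega
      have hX12 : X.card = 1 ∨ X.card = 2 := by omega
      rcases hX12 with h1 | h2
      · rw [Finset.card_eq_one] at h1
        obtain ⟨x, rfl⟩ := h1
        apply Finset.mem_union_left
        rw [Finset.mem_biUnion]
        exact ⟨x, Finset.mem_univ _, by
          simp only [starSets, mem_filter, mem_powersetCard]; exact ⟨⟨hTE, hTj⟩, hbd⟩⟩
      · rw [Finset.card_eq_two] at h2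
        obtain ⟨x, y, hxy, rfl⟩ := h2
        have h3 := hco.card_bd_pair hxy
        have h4 := card_bdH_pair_le H hdeg hxy
        have h5 : j + 8 = 2 * Fintype.card V := by omega
        apply Finset.mem_union_right
        rw [if_pos h5, Finset.mem_image]
        refine ⟨{x, y}, ?_, ?_⟩
        · simp only [Qset, mem_filter, mem_powersetCard, subset_univ, true_and]
          exact ⟨Finset.card_pair hxy, by omega⟩
        · exact Finset.eq_of_subset_of_card_le hbd (by omega)
    rcases le_total X.card Xᶜ.card with h | h
    · exact key X hX h hbd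
    · refine key Xᶜ hXc ?_ ?_
      · rw [compl_compl]; exact h
      · rw [bd_compl]; exact hbd
  refine (Finset.card_le_card hsub).trans ((Finset.card_union_le _ _).trans ?_)
  refine add_le_add Finset.card_biUnion_le ?_
  split_ifs
  · exact Finset.card_image_le
  · simp

lemma star_inter {E : Finset (Sym2 V)} {x y : V} (hxy : x ≠ y) :
    (bd E {x} ∩ bd E {y}).card ≤ 1 := by
  have : bd E {x} ∩ bd E {y} ⊆ {s(x, y)} := by
    intro e
    induction e using Sym2.ind with
    | _ a b =>
      simp only [mem_inter, mem_bd, mem_singleton]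
      rintro ⟨⟨-, h1⟩, ⟨-, h2⟩⟩
      rcases h1 with ⟨rfl, h1⟩ | ⟨rfl, h1⟩
      · rcases h2 with ⟨rfl, h2⟩ | ⟨rfl, h2⟩
        · exact absurd rfl hxy
        · rfl
      · rcases h2 with ⟨rfl, h2⟩ | ⟨rfl, h2⟩
        · exact Sym2.eq_swap
        · exact absurd rfl hxy
  exact (Finset.card_le_card this).trans (by simp)

lemma disc_lower {E : Finset (Sym2 V)} {H : SimpleGraph V} (hco : IsCo E H)
    (hn : 6 ≤ Fintype.card V)
    (hdeg : ∀ x, (H.neighborFinset x).card ≤ 2) (j : ℕ) (hj : j + 8 ≤ 2 * Fintype.card V)
    (hQ1 : j + 8 = 2 * Fintype.card V → 8 ≤ Fintype.card V ∨ (Qset H).card ≤ 1) :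
    ∑ x, (starSets E j x).card
      + (if j + 8 = 2 * Fintype.card V then (Qset H).card else 0) ≤ (disc E j).card := by
  have hne : Nonempty V := Fintype.card_pos_iff.mp (by omega)
  have hstar : ∀ x, Fintype.card V ≤ (bd E {x}).card + 3 := by
    intro x
    have := hco.card_bd_single x
    have := hdeg x
    omega
  -- disjointness
  have hdisj : ∀ x ∈ (univ : Finset V), ∀ y ∈ (univ : Finset V), x ≠ y →
      Disjoint (starSets E j x) (starSets E j y) := by
    intro x _ y _ hxy
    rw [Finset.disjoint_left]
    intro T hT hT'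
    simp only [starSets, mem_filter, mem_powersetCard] at hT hT'
    have h1 : bd E {x} ∪ bd E {y} ⊆ T := Finset.union_subset hT.2 hT'.2
    have h2 := Finset.card_le_card h1
    have h3 := Finset.card_union_add_card_inter (bd E {x}) (bd E {y})
    have h4 := star_inter (E := E) hxy
    have := hstar x
    have := hstar y
    omega
  have hsub1 : univ.biUnion (starSets E j) ⊆ disc E j := by
    intro T hT
    rw [Finset.mem_biUnion] at hT
    obtain ⟨x, -, hT⟩ := hT
    simp only [starSets, mem_filter] at hT
    simp only [disc, mem_filter]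
    refine ⟨hT.1, ?_⟩
    rw [disc_sdiff_iff]
    refine ⟨{x}, ⟨x, by simp⟩, ?_, hT.2⟩
    rw [← Finset.card_pos, Finset.card_compl, Finset.card_singleton]
    omega
  split_ifs with h8
  · -- j = 2n - 8
    -- incidence counts
    have hinc : ∀ P : Finset V, P.card = 2 → ∀ w, w ∉ P →
        ((bd E P) ∩ (bd E {w})).card ≤ 2 := by
      intro P hP w hw
      have : (bd E P) ∩ (bd E {w}) ⊆ P.image (fun a => s(w, a)) := by
        intro e
        induction e using Sym2.ind with
        | _ a b =>
          simp only [mem_inter, mem_bd, mem_singleton, mem_image]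
          rintro ⟨⟨-, h1⟩, ⟨-, h2⟩⟩
          rcases h2 with ⟨rfl, h2⟩ | ⟨rfl, h2⟩
          · rcases h1 with ⟨h1, -⟩ | ⟨h1, -⟩
            · exact absurd h1 hw
            · exact ⟨b, h1, rfl⟩
          · rcases h1 with ⟨h1, -⟩ | ⟨h1, -⟩
            · exact ⟨a, h1, Sym2.eq_swap⟩
            · exact absurd h1 hw
      exact (Finset.card_le_card this).trans (Finset.card_image_le.trans hP.le)
    have hinc2 : ∀ P : Finset V, P.card = 2 → ∀ w ∈ P,
        Fintype.card V ≤ ((bd E P) ∩ (bd E {w})).card + 4 := by
      intro P hP w hw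
      have h1 : (bd E {w}) \ (bd E P) ⊆ (P.erase w).image (fun a => s(w, a)) := by
        intro e
        induction e using Sym2.ind with
        | _ a b =>
          simp only [mem_sdiff, mem_bd, mem_singleton, mem_image, mem_erase]
          rintro ⟨⟨h0, h1⟩, h2⟩
          rcases h1 with ⟨rfl, h1⟩ | ⟨rfl, h1⟩
          · refine ⟨b, ⟨h1, ?_⟩, rfl⟩
            by_contra hb
            exact h2 ⟨h0, Or.inl ⟨hw, hb⟩⟩
          · refine ⟨a, ⟨h1, ?_⟩, Sym2.eq_swap⟩
            by_contra hb
            exact h2 ⟨h0, Or.inr ⟨hw, hb⟩⟩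
      have h2 := (Finset.card_le_card h1).trans Finset.card_image_le
      rw [Finset.card_erase_of_mem hw, hP] at h2
      have h3 := Finset.card_sdiff_add_card_inter (bd E {w}) (bd E P)
      rw [Finset.inter_comm] at h3
      have := hstar w
      omega
    have hsub2 : (Qset H).image (bd E) ⊆ disc E j := by
      intro T hT
      rw [Finset.mem_image] at hT
      obtain ⟨P, hP, rfl⟩ := hT
      simp only [Qset, mem_filter, mem_powersetCard, subset_univ, true_and] at hP
      simp only [disc, mem_filter, mem_powersetCard]
      refine ⟨⟨bd_subset _ _, ?_⟩, ?_⟩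
      · obtain ⟨x, y, hxy, rfl⟩ := Finset.card_eq_two.mp hP.1
        have := hco.card_bd_pair hxy
        omega
      · rw [disc_sdiff_iff]
        refine ⟨P, ?_, ?_, Finset.Subset.refl _⟩
        · rw [← Finset.card_pos]; omega
        · rw [← Finset.card_pos, Finset.card_compl]; omega
    have hinj : Set.InjOn (bd E) (Qset H : Set (Finset V)) := by
      intro P hP P' hP' heq
      rcases hQ1 h8 with hn8 | hQ1
      swap
      · exact Finset.card_le_one.mp hQ1 P (Finset.mem_coe.mp hP) P' (Finset.mem_coe.mp hP')
      simp only [Qset, coe_filter, mem_powersetCard, subset_univ, true_and, Set.mem_ofPred_eq]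
        at hP hP'
      have hPP : P ⊆ P' := by
        intro w hw
        by_contra hw'
        have h1 := hinc2 P hP.1 w hw
        have h2 := hinc P' hP'.1 w hw'
        rw [← heq] at h2
        omega
      exact Finset.eq_of_subset_of_card_le hPP (by omega)
    have hdisj2 : Disjoint (univ.biUnion (starSets E j)) ((Qset H).image (bd E)) := by
      rw [Finset.disjoint_left]
      intro T hT hT'
      rw [Finset.mem_biUnion] at hT
      obtain ⟨w, -, hT⟩ := hT
      rw [Finset.mem_image] at hT'
      obtain ⟨P, hP, rfl⟩ := hT'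
      simp only [starSets, mem_filter] at hT
      simp only [Qset, mem_filter, mem_powersetCard, subset_univ, true_and] at hP
      have hint : (bd E P) ∩ (bd E {w}) = bd E {w} := Finset.inter_eq_right.mpr hT.2
      have hs := hstar w
      by_cases hw : w ∈ P
      · obtain ⟨x, y, hxy, rfl⟩ := Finset.card_eq_two.mp hP.1
        have h4 := (card_bdH_pair_eq_four_iff H hdeg hxy).mp hP.2
        have hxyE : s(x, y) ∈ E := (hco x y).mpr ⟨hxy, h4.2.2⟩
        have hmem : s(x, y) ∈ bd E {w} := by
          rw [mem_bd]
          refine ⟨hxyE, ?_⟩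
          simp only [mem_insert, mem_singleton] at hw ⊢
          rcases hw with rfl | rfl
          · left; exact ⟨rfl, hxy.symm⟩
          · right; exact ⟨rfl, hxy⟩
        have := hT.2 hmem
        rw [mem_bd] at this
        simp at this
      · have := hinc P hP.1 w hw
        rw [hint] at this
        omega
    calc ∑ x, (starSets E j x).card + (Qset H).card
        = (univ.biUnion (starSets E j)).card + ((Qset H).image (bd E)).card := by
          rw [Finset.card_biUnion hdisj, Finset.card_image_of_injOn hinj]
      _ = ((univ.biUnion (starSets E j)) ∪ ((Qset H).image (bd E))).card :=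
          (Finset.card_union_of_disjoint hdisj2).symm
      _ ≤ (disc E j).card := Finset.card_le_card (Finset.union_subset hsub1 hsub2)
  · rw [add_zero, ← Finset.card_biUnion hdisj]
    exact Finset.card_le_card hsub1

end Pool.Agent.W_MP_d15038_co
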