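import Pool.Agent.W_MP_d15038_co.Flow

set_option autoImplicit false
set_option linter.unusedSectionVars false

namespace Pool.Agent.W_MP_d15038_co

open Finset SimpleGraph

variable {V : Type*} [Fintype V] [DecidableEq V]

/-- edges of `E` crossing from `X` to its complement -/
def bd (E : Finset (Sym2 V)) (X : Finset V) : Finset (Sym2 V) :=
  E.filter fun e => ∃ a ∈ X, ∃ b, b ∉ X ∧ e = s(a, b)

lemma mem_bd (E : Finset (Sym2 V)) (X : Finset V) (a b : V) :
    s(a, b) ∈ bd E X ↔ s(a, b) ∈ E ∧ ((a ∈ X ∧ b ∉ X) ∨ (b ∈ X ∧ a ∉ X)) := by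
  simp only [bd, mem_filter]
  refine and_congr_right fun _ => ?_
  constructor
  · rintro ⟨c, hc, d, hd, h⟩
    rw [Sym2.eq_iff] at h
    rcases h with ⟨rfl, rfl⟩ | ⟨rfl, rfl⟩
    · exact Or.inl ⟨hc, hd⟩
    · exact Or.inr ⟨hc, hd⟩
  · rintro (⟨h1, h2⟩ | ⟨h1, h2⟩)
    · exact ⟨a, h1, b, h2, rfl⟩
    · exact ⟨b, h1, a, h2, Sym2.eq_swap⟩

lemma bd_subset (E : Finset (Sym2 V)) (X : Finset V) : bd E X ⊆ E := Finset.filter_subset _ _

lemma bd_compl (E : Finset (Sym2 V)) (X : Finset V) : bd E Xᶜ = bd E X := by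
  ext e
  induction e using Sym2.ind with
  | _ a b =>
    rw [mem_bd, mem_bd]
    simp only [mem_compl, not_not]
    tauto

lemma disc_iff [Nonempty V] (S : Finset (Sym2 V)) :
    ¬ (gr S).Connected ↔ ∃ X : Finset V, X.Nonempty ∧ Xᶜ.Nonempty ∧ bd S X = ∅ := by
  classical
  constructor
  · intro h
    have h' : ¬ (gr S).Preconnected := fun hp => h ⟨hp⟩
    unfold SimpleGraph.Preconnected at h'
    push Not at h'
    obtain ⟨x, y, hxy⟩ := h'
    refine ⟨univ.filter fun w => (gr S).Reachable x w, ⟨x, by simp⟩, ⟨y, by simpa using hxy⟩, ?_⟩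
    rw [Finset.eq_empty_iff_forall_notMem]
    intro e
    induction e using Sym2.ind with
    | _ a b =>
      rw [mem_bd]
      simp only [mem_filter, mem_univ, true_and]
      rintro ⟨he, (⟨h1, h2⟩ | ⟨h1, h2⟩)⟩
      · have hne : a ≠ b := by rintro rfl; exact h2 h1
        exact h2 (h1.trans (adj_gr he hne).reachable)
      · have hne : a ≠ b := by rintro rfl; exact h2 h1
        exact h2 (h1.trans (adj_gr he hne).reachable.symm)
  · rintro ⟨X, ⟨x, hx⟩, ⟨y, hy⟩, hbd⟩ hconn
    rw [mem_compl] at hy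
    have key : ∀ a b, (gr S).Reachable a b → a ∈ X → b ∈ X := by
      intro a b ⟨p⟩
      induction p with
      | nil => exact id
      | @cons a c b hadj p ih =>
        intro ha
        apply ih
        by_contra hc
        have hS : s(a, c) ∈ S := by
          have := hadj
          simp only [gr, fromEdgeSet_adj, mem_coe] at this
          exact this.1
        have : s(a, c) ∈ bd S X := (mem_bd _ _ _ _).mpr ⟨hS, Or.inl ⟨ha, hc⟩⟩
        rw [hbd] at this
        exact absurd this (Finset.notMem_empty _)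
    exact hy (key x y (hconn.preconnected x y) hx)

lemma bd_sdiff_empty_iff (E T : Finset (Sym2 V)) (X : Finset V) :
    bd (E \ T) X = ∅ ↔ bd E X ⊆ T := by
  rw [Finset.eq_empty_iff_forall_notMem]
  constructor
  · intro h e he
    by_contra hT
    apply h e
    simp only [bd, mem_filter, mem_sdiff] at he ⊢
    exact ⟨⟨he.1, hT⟩, he.2⟩
  · intro h e he
    simp only [bd, mem_filter, mem_sdiff] at he
    exact he.1.2 (h (by simp only [bd, mem_filter]; exact ⟨he.1.1, he.2⟩))

lemma disc_sdiff_iff [Nonempty V] (E T : Finset (Sym2 V)) :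
    ¬ (gr (E \ T)).Connected ↔ ∃ X : Finset V, X.Nonempty ∧ Xᶜ.Nonempty ∧ bd E X ⊆ T := by
  rw [disc_iff]
  simp_rw [bd_sdiff_empty_iff]

open scoped Classical in
/-- disconnecting sets of size `j` -/
noncomputable def disc (E : Finset (Sym2 V)) (j : ℕ) : Finset (Finset (Sym2 V)) :=
  (E.powersetCard j).filter fun T => ¬ (gr (E \ T)).Connected

/-- number of pairs crossing -/
lemma card_bd_all (E Ec : Finset (Sym2 V)) (hE : ∀ x y, x ≠ y → (s(x, y) ∈ E ↔ s(x, y) ∉ Ec))
    (X : Finset V) : (bd E X).card + (bd Ec X).card = X.card * Xᶜ.card := by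
  classical
  rw [← Finset.card_product, ← Finset.card_union_of_disjoint]
  · symm
    refine Finset.card_bij (fun p _ => s(p.1, p.2)) ?_ ?_ ?_
    · rintro ⟨a, b⟩ h
      simp only [mem_product, mem_compl] at h
      have hne : a ≠ b := by rintro rfl; exact h.2 h.1
      simp only [mem_union, mem_bd]
      by_cases he : s(a, b) ∈ Ec
      · right; exact ⟨he, Or.inl h⟩
      · left; exact ⟨(hE a b hne).mpr he, Or.inl h⟩
    · rintro ⟨a, b⟩ h ⟨c, d⟩ h' heq
      simp only [mem_product, mem_compl] at h h'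
      simp only [Sym2.eq_iff] at heq
      rcases heq with ⟨rfl, rfl⟩ | ⟨rfl, rfl⟩
      · rfl
      · exact absurd h.1 h'.2
    · intro e
      induction e using Sym2.ind with
      | _ a b =>
        intro h
        have h' : (a ∈ X ∧ b ∉ X) ∨ (b ∈ X ∧ a ∉ X) := by
          rw [mem_union, mem_bd, mem_bd] at h
          rcases h with h | h
          · exact h.2
          · exact h.2
        rcases h' with h' | h'
        · exact ⟨(a, b), by simpa using h', rfl⟩
        · exact ⟨(b, a), by simpa using h', Sym2.eq_swap⟩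
  · rw [Finset.disjoint_left]
    intro e
    induction e using Sym2.ind with
    | _ a b =>
      rw [mem_bd, mem_bd]
      rintro ⟨h1, h2⟩ ⟨h3, -⟩
      have hne : a ≠ b := by
        rintro rfl
        rcases h2 with h | h <;> exact h.2 h.1
      exact (hE a b hne).mp h1 h3

/-- `E` is the edge set of the complement of `H` -/
def IsCo (E : Finset (Sym2 V)) (H : SimpleGraph V) : Prop :=
  ∀ x y, s(x, y) ∈ E ↔ x ≠ y ∧ ¬ H.Adj x y

section

open scoped Classical

lemma IsCo.card_bd {E : Finset (Sym2 V)} {H : SimpleGraph V} (h : IsCo E H) (X : Finset V) :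
    (bd E X).card + (bd H.edgeFinset X).card = X.card * Xᶜ.card := by
  apply card_bd_all
  intro x y hxy
  rw [h x y, mem_edgeFinset, mem_edgeSet]
  simp [hxy]

lemma card_bdH_single (H : SimpleGraph V) (x : V) :
    (bd H.edgeFinset {x}).card = (H.neighborFinset x).card := by
  symm
  refine Finset.card_bij (fun y _ => s(x, y)) ?_ ?_ ?_
  · intro y hy
    rw [mem_neighborFinset] at hy
    rw [mem_bd, mem_edgeFinset, mem_edgeSet]
    exact ⟨hy, Or.inl ⟨by simp, by simpa using hy.ne.symm⟩⟩
  · intro a ha b hb h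
    rw [Sym2.eq_iff] at h
    rcases h with ⟨-, h⟩ | ⟨h1, h2⟩
    · exact h
    · rw [← h1, h2]
  · intro e
    induction e using Sym2.ind with
    | _ a b =>
      rw [mem_bd, mem_edgeFinset, mem_edgeSet]
      simp only [mem_singleton]
      rintro ⟨h, (⟨rfl, -⟩ | ⟨rfl, -⟩)⟩
      · exact ⟨b, by rwa [mem_neighborFinset], rfl⟩
      · exact ⟨a, by rw [mem_neighborFinset]; exact h.symm, Sym2.eq_swap⟩

lemma card_bdH_pair (H : SimpleGraph V) {x y : V} (hxy : x ≠ y) :
    (bd H.edgeFinset {x, y}).card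
      = ((H.neighborFinset x).erase y).card + ((H.neighborFinset y).erase x).card := by
  have h1 : bd H.edgeFinset {x, y} = ((H.neighborFinset x).erase y).image (fun w => s(x, w)) ∪
      ((H.neighborFinset y).erase x).image (fun w => s(y, w)) := by
    ext e
    induction e using Sym2.ind with
    | _ a b =>
      rw [mem_bd, mem_edgeFinset, mem_edgeSet]
      simp only [mem_insert, mem_singleton, mem_union, mem_image, mem_erase, mem_neighborFinset,
        Sym2.eq_iff]
      constructor
      · rintro ⟨h, (⟨h1, h2⟩ | ⟨h1, h2⟩)⟩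
        · push Not at h2
          rcases h1 with rfl | rfl
          · left; exact ⟨b, ⟨h2.2, h⟩, Or.inl ⟨rfl, rfl⟩⟩
          · right; exact ⟨b, ⟨h2.1, h⟩, Or.inl ⟨rfl, rfl⟩⟩
        · push Not at h2
          rcases h1 with rfl | rfl
          · left; exact ⟨a, ⟨h2.2, h.symm⟩, Or.inr ⟨rfl, rfl⟩⟩
          · right; exact ⟨a, ⟨h2.1, h.symm⟩, Or.inr ⟨rfl, rfl⟩⟩
      · rintro (⟨w, ⟨hw, hadj⟩, (⟨rfl, rfl⟩ | ⟨rfl, rfl⟩)⟩ | ⟨w, ⟨hw, hadj⟩, (⟨rfl, rfl⟩ | ⟨rfl, rfl⟩)⟩)
        · exact ⟨hadj, Or.inl ⟨Or.inl rfl, by push Not; exact ⟨hadj.ne.symm, hw⟩⟩⟩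
        · exact ⟨hadj.symm, Or.inr ⟨Or.inl rfl, by push Not; exact ⟨hadj.ne.symm, hw⟩⟩⟩
        · exact ⟨hadj, Or.inl ⟨Or.inr rfl, by push Not; exact ⟨hw, hadj.ne.symm⟩⟩⟩
        · exact ⟨hadj.symm, Or.inr ⟨Or.inr rfl, by push Not; exact ⟨hw, hadj.ne.symm⟩⟩⟩
  rw [h1, Finset.card_union_of_disjoint, Finset.card_image_of_injective, Finset.card_image_of_injective]
  · intro a b h
    simp only [Sym2.eq_iff] at h
    rcases h with ⟨-, h⟩ | ⟨h1, h2⟩
    · exact h
    · exact h2.trans h1
  · intro a b h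
    simp only [Sym2.eq_iff] at h
    rcases h with ⟨-, h⟩ | ⟨h1, h2⟩
    · exact h
    · exact h2.trans h1
  · rw [Finset.disjoint_left]
    intro e he he'
    simp only [mem_image, mem_erase, mem_neighborFinset] at he he'
    obtain ⟨w, ⟨hw, -⟩, rfl⟩ := he
    obtain ⟨w', ⟨hw', -⟩, h⟩ := he'
    rw [Sym2.eq_iff] at h
    rcases h with ⟨h, -⟩ | ⟨h, -⟩
    · exact hxy h.symm
    · exact hw h.symm

/-- the crossing number of a pair -/
lemma card_bdH_pair_le (H : SimpleGraph V) (hdeg : ∀ x, (H.neighborFinset x).card ≤ 2)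
    {x y : V} (hxy : x ≠ y) : (bd H.edgeFinset {x, y}).card ≤ 4 := by
  rw [card_bdH_pair H hxy]
  have h1 := Finset.card_erase_le (s := H.neighborFinset x) (a := y)
  have h2 := Finset.card_erase_le (s := H.neighborFinset y) (a := x)
  have := hdeg x
  have := hdeg y
  omega

lemma card_bdH_pair_eq_four_iff (H : SimpleGraph V) (hdeg : ∀ x, (H.neighborFinset x).card ≤ 2)
    {x y : V} (hxy : x ≠ y) : (bd H.edgeFinset {x, y}).card = 4 ↔
      (H.neighborFinset x).card = 2 ∧ (H.neighborFinset y).card = 2 ∧ ¬ H.Adj x y := by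
  rw [card_bdH_pair H hxy]
  have h1 := hdeg x
  have h2 := hdeg y
  by_cases hadj : H.Adj x y
  · rw [Finset.card_erase_of_mem (by rwa [mem_neighborFinset]),
      Finset.card_erase_of_mem (by rw [mem_neighborFinset]; exact hadj.symm)]
    simp only [hadj, not_true_eq_false, and_false, iff_false]
    omega
  · rw [Finset.erase_eq_of_notMem (by rwa [mem_neighborFinset]),
      Finset.erase_eq_of_notMem (by rw [mem_neighborFinset]; exact fun h => hadj h.symm)]
    simp only [hadj, not_false_eq_true, and_true]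
    omega

lemma IsCo.card_bd_single {E : Finset (Sym2 V)} {H : SimpleGraph V} (h : IsCo E H) (x : V) :
    (bd E {x}).card + (H.neighborFinset x).card + 1 = Fintype.card V := by
  have h1 := h.card_bd {x}
  rw [card_bdH_single, Finset.card_singleton, one_mul, Finset.card_compl,
    Finset.card_singleton] at h1
  have := Fintype.card_pos_iff.mpr ⟨x⟩
  omega

lemma IsCo.card_bd_pair {E : Finset (Sym2 V)} {H : SimpleGraph V} (h : IsCo E H) {x y : V}
    (hxy : x ≠ y) : (bd E {x, y}).card + (bd H.edgeFinset {x, y}).card + 4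
      = 2 * Fintype.card V := by
  have h1 := h.card_bd {x, y}
  rw [Finset.card_compl, Finset.card_pair hxy] at h1
  have h2 : ({x, y} : Finset V).card ≤ Fintype.card V := Finset.card_le_univ _
  rw [Finset.card_pair hxy] at h2
  omega

/-- number of supersets of a given size -/
lemma card_superset (E A : Finset (Sym2 V)) (hA : A ⊆ E) (j : ℕ) :
    ((E.powersetCard j).filter fun T => A ⊆ T).card
      = if A.card ≤ j then (E.card - A.card).choose (j - A.card) else 0 := by
  split_ifs with h
  · rw [← Finset.card_sdiff_of_subset hA, ← Finset.card_powersetCard]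
    refine Finset.card_bij' (fun T _ => T \ A) (fun T _ => T ∪ A) ?_ ?_ ?_ ?_
    · intro T hT
      simp only [mem_filter, mem_powersetCard] at hT ⊢
      refine ⟨Finset.sdiff_subset_sdiff hT.1.1 (Finset.Subset.refl _), ?_⟩
      rw [Finset.card_sdiff_of_subset hT.2, hT.1.2]
    · intro T hT
      simp only [mem_filter, mem_powersetCard] at hT ⊢
      refine ⟨⟨Finset.union_subset (hT.1.trans Finset.sdiff_subset) hA, ?_⟩,
        Finset.subset_union_right⟩
      rw [Finset.card_union_of_disjoint, hT.2]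
      · omega
      · exact Finset.disjoint_of_subset_left hT.1 Finset.sdiff_disjoint
    · intro T hT
      simp only [mem_filter, mem_powersetCard] at hT
      exact Finset.sdiff_union_of_subset hT.2
    · intro T hT
      simp only [mem_powersetCard] at hT
      rw [Finset.union_sdiff_right]
      exact Finset.sdiff_eq_self_of_disjoint
        (Finset.disjoint_of_subset_left hT.1 Finset.sdiff_disjoint)
  · rw [Finset.card_eq_zero, Finset.filter_eq_empty_iff]
    intro T hT hAT
    rw [mem_powersetCard] at hT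
    have := Finset.card_le_card hAT
    omega

end

end Pool.Agent.W_MP_d15038_co
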