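import Pool.Agent.W_MP_d15038_co.Cut

set_option autoImplicit false
set_option linter.unusedSectionVars false

namespace Pool.Agent.W_MP_d15038_co

open Finset SimpleGraph
open scoped Classical

lemma lexi (m : ℕ) (a : ℕ → ℝ)
    (h : ∀ t : ℝ, 0 < t → t < 1 → 0 ≤ ∑ i ∈ range (m + 1), a i * (t ^ i * (1 - t) ^ (m - i)))
    (k : ℕ) (hk : k ≤ m) (h0 : ∀ j < k, a j = 0) : 0 ≤ a k := by
  set f : ℝ → ℝ := fun t => ∑ i ∈ range (m + 1),
    if i < k then 0 else a i * (t ^ (i - k) * (1 - t) ^ (m - i)) with hf
  have hcont : Continuous f := by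
    apply continuous_finsetSum
    intro i _
    split_ifs
    · exact continuous_const
    · fun_prop
  have hf0 : f 0 = a k := by
    simp only [hf]
    rw [Finset.sum_eq_single k]
    · simp
    · intro b _ hb
      split_ifs with hbk
      · rfl
      · have : b - k ≠ 0 := by omega
        simp [this]
    · intro hkm
      exfalso
      exact hkm (Finset.mem_range.mpr (by omega))
  have hpos : ∀ t : ℝ, 0 < t → t < 1 → 0 ≤ f t := by
    intro t ht0 ht1
    have h1 := h t ht0 ht1
    have h2 : ∑ i ∈ range (m + 1), a i * (t ^ i * (1 - t) ^ (m - i)) = t ^ k * f t := by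
      simp only [hf, Finset.mul_sum]
      refine Finset.sum_congr rfl fun i _ => ?_
      split_ifs with hik
      · rw [h0 i hik]; ring
      · have : t ^ i = t ^ k * t ^ (i - k) := by
          rw [← pow_add]; congr 1; omega
        rw [this]; ring
    rw [h2] at h1
    exact nonneg_of_mul_nonneg_right h1 (by positivity)
  rw [← hf0]
  have htend : Filter.Tendsto f (nhdsWithin 0 (Set.Ioi 0)) (nhds (f 0)) :=
    (hcont.tendsto 0).mono_left nhdsWithin_le_nhds
  refine ge_of_tendsto htend ?_
  have hmem : Set.Ioo (0:ℝ) 1 ∈ nhdsWithin (0:ℝ) (Set.Ioi 0) :=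
    Ioo_mem_nhdsGT (by norm_num)
  filter_upwards [hmem] with t ht
  exact hpos t ht.1 ht.2

variable {V : Type*} [Fintype V] [DecidableEq V]

/-- reliability as a function of the edge set -/
noncomputable def relE (E : Finset (Sym2 V)) (p : ℝ) : ℝ :=
  ∑ S ∈ E.powerset with (gr S).Connected, p ^ S.card * (1 - p) ^ (E.card - S.card)

/-- connected sets of size `i` -/
noncomputable def connS (E : Finset (Sym2 V)) (i : ℕ) : Finset (Finset (Sym2 V)) :=
  (E.powersetCard i).filter fun S => (gr S).Connected

lemma sum_by_card (E : Finset (Sym2 V)) (P : Finset (Sym2 V) → Prop) [DecidablePred P]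
    (f : ℕ → ℝ) :
    ∑ S ∈ E.powerset with P S, f S.card
      = ∑ i ∈ range (E.card + 1), (((E.powersetCard i).filter P).card : ℝ) * f i := by
  have h1 : ∀ i ∈ range (E.card + 1), (((E.powersetCard i).filter P).card : ℝ) * f i
      = ∑ S ∈ E.powerset with P S, if S.card = i then f S.card else 0 := by
    intro i _
    rw [← Finset.sum_filter, Finset.filter_filter]
    have : (E.powersetCard i).filter P = E.powerset.filter fun S => P S ∧ S.card = i := by
      ext S
      simp only [mem_filter, mem_powersetCard, mem_powerset]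
      tauto
    rw [this, ← nsmul_eq_mul, ← Finset.sum_const]
    refine Finset.sum_congr rfl fun S hS => ?_
    rw [mem_filter] at hS
    rw [hS.2.2]
  rw [Finset.sum_congr rfl h1, Finset.sum_comm]
  refine Finset.sum_congr rfl fun S hS => ?_
  rw [Finset.sum_ite_eq]
  rw [if_pos]
  rw [mem_filter, mem_powerset] at hS
  rw [Finset.mem_range]
  exact Nat.lt_succ_of_le (Finset.card_le_card hS.1)

lemma relE_eq_conn (E : Finset (Sym2 V)) (p : ℝ) :
    relE E p = ∑ i ∈ range (E.card + 1), ((connS E i).card : ℝ) * (p ^ i * (1 - p) ^ (E.card - i)) := by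
  unfold relE connS
  exact sum_by_card E (fun S => (gr S).Connected) (fun i => p ^ i * (1 - p) ^ (E.card - i))

lemma relE_eq_disc (E : Finset (Sym2 V)) (p : ℝ) :
    1 - relE E p = ∑ i ∈ range (E.card + 1),
      ((disc E i).card : ℝ) * ((1 - p) ^ i * p ^ (E.card - i)) := by
  have htot : ∑ S ∈ E.powerset, p ^ S.card * (1 - p) ^ (E.card - S.card) = 1 := by
    rw [Finset.sum_pow_mul_eq_add_pow]; simp
  have hsplit := Finset.sum_filter_add_sum_filter_not E.powerset
    (fun S : Finset (Sym2 V) => (gr S).Connected)
    (fun S : Finset (Sym2 V) => p ^ S.card * (1 - p) ^ (E.card - S.card))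
  rw [htot] at hsplit
  have h1 : 1 - relE E p = ∑ S ∈ E.powerset with ¬ (gr S).Connected,
      p ^ S.card * (1 - p) ^ (E.card - S.card) := by
    unfold relE; linarith
  rw [h1]
  have h2 : ∑ S ∈ E.powerset with ¬ (gr S).Connected, p ^ S.card * (1 - p) ^ (E.card - S.card)
      = ∑ T ∈ E.powerset with ¬ (gr (E \ T)).Connected,
        (1 - p) ^ T.card * p ^ (E.card - T.card) := by
    refine Finset.sum_bij' (fun S _ => E \ S) (fun T _ => E \ T) ?_ ?_ ?_ ?_ ?_
    · intro S hS
      simp only [mem_filter, mem_powerset] at hS ⊢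
      refine ⟨Finset.sdiff_subset, ?_⟩
      rw [Finset.sdiff_sdiff_eq_self hS.1]; exact hS.2
    · intro T hT
      simp only [mem_filter, mem_powerset] at hT ⊢
      exact ⟨Finset.sdiff_subset, hT.2⟩
    · intro S hS
      simp only [mem_filter, mem_powerset] at hS
      exact Finset.sdiff_sdiff_eq_self hS.1
    · intro T hT
      simp only [mem_filter, mem_powerset] at hT
      exact Finset.sdiff_sdiff_eq_self hT.1
    · intro S hS
      simp only [mem_filter, mem_powerset] at hS
      rw [Finset.card_sdiff_of_subset hS.1]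
      have := Finset.card_le_card hS.1
      have h3 : E.card - (E.card - S.card) = S.card := by omega
      rw [h3]; ring
  rw [h2]
  unfold disc
  exact sum_by_card E (fun T => ¬ (gr (E \ T)).Connected) (fun i => (1 - p) ^ i * p ^ (E.card - i))

theorem disc_lexi {E E' : Finset (Sym2 V)} (hc : E.card = E'.card)
    (h : ∀ p ∈ Set.Icc (0:ℝ) 1, relE E' p ≤ relE E p) (k : ℕ)
    (h0 : ∀ j < k, (disc E j).card = (disc E' j).card) : (disc E k).card ≤ (disc E' k).card := by
  by_cases hk : k ≤ E.card
  · have := lexi E.card (fun i => ((disc E' i).card : ℝ) - (disc E i).card) ?_ k hk ?_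
    · simp only [sub_nonneg] at this
      exact_mod_cast this
    · intro t ht0 ht1
      have h1 := h (1 - t) ⟨by linarith, by linarith⟩
      have h2 := relE_eq_disc E (1 - t)
      have h3 := relE_eq_disc E' (1 - t)
      rw [← hc] at h3
      have h4 : ∑ i ∈ range (E.card + 1),
          (((disc E' i).card : ℝ) - (disc E i).card) * (t ^ i * (1 - t) ^ (E.card - i))
          = (1 - relE E' (1 - t)) - (1 - relE E (1 - t)) := by
        rw [h2, h3, ← Finset.sum_sub_distrib]
        refine Finset.sum_congr rfl fun i _ => ?_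
        ring
      rw [h4]; linarith
    · intro j hj
      have := h0 j hj
      simp [this]
  · have : disc E k = ∅ := by
      unfold disc
      rw [Finset.powersetCard_eq_empty.mpr (by omega)]
      simp
    rw [this]; simp

theorem conn_lexi {E E' : Finset (Sym2 V)} (hc : E.card = E'.card)
    (h : ∀ p ∈ Set.Icc (0:ℝ) 1, relE E' p ≤ relE E p) (k : ℕ)
    (h0 : ∀ j < k, (connS E j).card = (connS E' j).card) :
    (connS E' k).card ≤ (connS E k).card := by
  by_cases hk : k ≤ E.card
  · have := lexi E.card (fun i => ((connS E i).card : ℝ) - (connS E' i).card) ?_ k hk ?_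
    · simp only [sub_nonneg] at this
      exact_mod_cast this
    · intro t ht0 ht1
      have h1 := h t ⟨by linarith, by linarith⟩
      have h2 := relE_eq_conn E t
      have h3 := relE_eq_conn E' t
      rw [← hc] at h3
      have h4 : ∑ i ∈ range (E.card + 1),
          (((connS E i).card : ℝ) - (connS E' i).card) * (t ^ i * (1 - t) ^ (E.card - i))
          = relE E t - relE E' t := by
        rw [h2, h3, ← Finset.sum_sub_distrib]
        refine Finset.sum_congr rfl fun i _ => ?_
        ring
      rw [h4]; linarith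
    · intro j hj
      have := h0 j hj
      simp [this]
  · have : connS E' k = ∅ := by
      unfold connS
      rw [Finset.powersetCard_eq_empty.mpr (by omega)]
      simp
    rw [this]; simp

theorem trees_le {E E' : Finset (Sym2 V)} (hE : ∀ e ∈ E, ¬ e.IsDiag) (hE' : ∀ e ∈ E', ¬ e.IsDiag)
    (hc : E.card = E'.card)
    (h : ∀ p ∈ Set.Icc (0:ℝ) 1, relE E' p ≤ relE E p) : (trees E').card ≤ (trees E).card := by
  by_cases hV : 0 < Fintype.card V
  · have hempty : ∀ (A : Finset (Sym2 V)), (∀ e ∈ A, ¬ e.IsDiag) → ∀ j < Fintype.card V - 1,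
        connS A j = ∅ := by
      intro A hA j hj
      rw [Finset.eq_empty_iff_forall_notMem]
      intro S hS
      simp only [connS, mem_filter, mem_powersetCard] at hS
      have h1 := hS.2.card_vert_le_card_edgeSet_add_one
      rw [natCard_edgeSet_gr (fun e he => hA e (hS.1.1 he))] at h1
      rw [Nat.card_eq_fintype_card] at h1
      omega
    have htree : ∀ (A : Finset (Sym2 V)), (∀ e ∈ A, ¬ e.IsDiag) →
        connS A (Fintype.card V - 1) = trees A := by
      intro A hA
      ext S
      simp only [connS, trees, mem_filter, mem_powersetCard, mem_powerset]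
      constructor
      · rintro ⟨⟨h1, h2⟩, h3⟩
        refine ⟨h1, ?_⟩
        rw [isTree_iff_connected_and_card]
        refine ⟨h3, ?_⟩
        rw [natCard_edgeSet_gr (fun e he => hA e (h1 he)), Nat.card_eq_fintype_card]
        omega
      · rintro ⟨h1, h2⟩
        have := card_of_isTree (fun e he => hA e (h1 he)) h2
        exact ⟨⟨h1, by omega⟩, h2.connected⟩
    have := conn_lexi hc h (Fintype.card V - 1) (by
      intro j hj
      rw [hempty E hE j hj, hempty E' hE' j hj])
    rwa [htree E hE, htree E' hE'] at this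
  · have : IsEmpty V := by
      rw [← Fintype.card_eq_zero_iff]; omega
    have h1 : trees E' = ∅ := by
      rw [Finset.eq_empty_iff_forall_notMem]
      intro S hS
      simp only [trees, mem_filter] at hS
      exact this.false hS.2.connected.nonempty.some
    rw [h1]; simp

end Pool.Agent.W_MP_d15038_co
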