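import Mathlib

set_option autoImplicit false

namespace Pool.Agent.W_MP_d15038_co

set_option maxHeartbeats 1000000 in
/-- scaled version, `e = 1/a` -/
lemma real_k5_scaled (e r T p2 pz py q3 q4 q' q'' m P : ℝ) (he0 : 0 < e) (he : e ≤ 1 / 7)
    (hr : 0 < r)
    (h2 : p2 = r + e ^ 2 * (T - q3)) (hz : pz * (1 - e) = e ^ 2 * (2 * T - q'))
    (hy : py * (1 + e) = -(r - e ^ 2 * T)) (hs : 2 * T = p2 + py + 2 * pz)
    (h3 : q3 = -p2 - e * q4) (h' : q' = -pz - e * q'')
    (b3 : |q3| ≤ m) (b4 : |q4| ≤ m) (b' : |q'| ≤ m) (b'' : |q''| ≤ m)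
    (hm : (1 - e) * m ≤ P) (hP : P ≤ max |p2| |pz|) : q' * e < (1 + e) * T := by
  have hm0 : 0 ≤ m := le_trans (abs_nonneg _) b3
  have he2 : e ^ 2 ≤ 1 / 49 := by nlinarith
  have he2' : e ^ 2 ≤ e / 7 := by nlinarith
  have he20 : 0 ≤ e ^ 2 := by positivity
  -- products
  have hA : |e ^ 2 * (T - q3)| ≤ (|T| + m) / 49 := by
    rw [abs_mul, abs_of_nonneg he20]
    have : |T - q3| ≤ |T| + m := (abs_sub _ _).trans (by linarith)
    nlinarith [abs_nonneg (T - q3), abs_nonneg T]
  have hB : |e ^ 2 * (2 * T - q')| ≤ (2 * |T| + m) / 49 := by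
    rw [abs_mul, abs_of_nonneg he20]
    have : |2 * T - q'| ≤ 2 * |T| + m := by
      refine (abs_sub _ _).trans ?_
      rw [abs_mul]; norm_num; linarith
    nlinarith [abs_nonneg (2 * T - q'), abs_nonneg T]
  have hC : |e ^ 2 * T| ≤ |T| / 49 := by
    rw [abs_mul, abs_of_nonneg he20]
    nlinarith [abs_nonneg T]
  have hpz : |pz| ≤ (2 * |T| + m) / 42 := by
    have h1 : |pz| * (1 - e) ≤ (2 * |T| + m) / 49 := by
      rw [← hz, abs_mul, abs_of_nonneg (by linarith : (0:ℝ) ≤ 1 - e)] at hB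
      exact hB
    nlinarith [abs_nonneg pz]
  have hp2 : |p2| ≤ r + (|T| + m) / 49 := by
    rw [h2]
    refine (abs_add_le _ _).trans ?_
    rw [abs_of_pos hr]
    linarith
  have hD : |py + r| ≤ r * e + |e ^ 2 * T| := by
    have h1 : (py + r) * (1 + e) = r * e + e ^ 2 * T := by linear_combination hy
    have h2 : |py + r| * (1 + e) ≤ r * e + |e ^ 2 * T| := by
      have : |py + r| * (1 + e) = |r * e + e ^ 2 * T| := by
        rw [← h1, abs_mul, abs_of_pos (by linarith : (0:ℝ) < 1 + e)]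
      rw [this]
      refine (abs_add_le _ _).trans ?_
      rw [abs_of_nonneg (by positivity : 0 ≤ r * e)]
    have := mul_nonneg (abs_nonneg (py + r)) he0.le
    linarith
  have hre : r * e ≤ r / 7 := by nlinarith
  have hT1 : |2 * T| ≤ |e ^ 2 * (T - q3)| + |py + r| + 2 * |pz| := by
    have : 2 * T = e ^ 2 * (T - q3) + (py + r) + 2 * pz := by rw [hs, h2]; ring
    rw [this]
    refine (abs_add_le _ _).trans ?_
    refine add_le_add ((abs_add_le _ _).trans le_rfl) ?_
    rw [abs_mul]; norm_num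
  have hT2 : 2 * |T| ≤ |e ^ 2 * (T - q3)| + |py + r| + 2 * |pz| := by
    have h0 : |2 * T| = 2 * |T| := by rw [abs_mul]; norm_num
    rw [h0] at hT1; exact hT1
  have hPb : P ≤ r + (2 * |T| + m) / 42 := by
    refine hP.trans (max_le ?_ ?_)
    · have := abs_nonneg T; linarith
    · linarith
  have hm1 : 6 / 7 * m ≤ P := by nlinarith
  -- first bounds
  have hT3 : |T| ≤ 0.2 * r := by
    have := abs_nonneg T
    linarith
  have hm2 : m ≤ 1.27 * r := by
    have := abs_nonneg T
    linarith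
  -- refined bounds
  have hpz1 : |pz| ≤ e / 6 * (2 * |T| + |q'|) := by
    have h1 : |pz| * (1 - e) ≤ e ^ 2 * (2 * |T| + |q'|) := by
      have : |pz| * (1 - e) = |e ^ 2 * (2 * T - q')| := by
        rw [← hz, abs_mul, abs_of_nonneg (by linarith : (0:ℝ) ≤ 1 - e)]
      rw [this, abs_mul, abs_of_nonneg he20]
      refine mul_le_mul_of_nonneg_left ?_ he20
      refine (abs_sub _ _).trans ?_
      rw [abs_mul]; norm_num
    have h2 : 0 ≤ 2 * |T| + |q'| := by positivity
    have h3 : e ^ 2 * (2 * |T| + |q'|) ≤ e / 7 * (2 * |T| + |q'|) :=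
      mul_le_mul_of_nonneg_right he2' h2
    have h4 : |pz| * (6 / 7) ≤ |pz| * (1 - e) :=
      mul_le_mul_of_nonneg_left (by linarith) (abs_nonneg _)
    linarith
  have hq1 : |q'| ≤ |pz| + e * m := by
    rw [h']
    refine (abs_sub _ _).trans ?_
    rw [abs_neg, abs_mul, abs_of_pos he0]
    have := mul_le_mul_of_nonneg_left b'' he0.le
    linarith
  have hem : e * m ≤ m / 7 := by nlinarith
  have hq2 : |q'| ≤ 0.25 * r := by linarith
  have hpz2 : |pz| ≤ 0.11 * (e * r) := by
    have : 2 * |T| + |q'| ≤ 0.65 * r := by linarith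
    have h1 : e / 6 * (2 * |T| + |q'|) ≤ e / 6 * (0.65 * r) :=
      mul_le_mul_of_nonneg_left this (by positivity)
    have h2 : e / 6 * (0.65 * r) = 0.65 / 6 * (e * r) := by ring
    rw [h2] at h1
    have : 0 < e * r := by positivity
    linarith
  have hem2 : e * m ≤ 1.27 * (e * r) := by
    have := mul_le_mul_of_nonneg_left hm2 he0.le
    linarith
  have hq3 : q' ≤ 1.38 * (e * r) := by
    have := le_abs_self q'
    linarith
  have her : 0 < e * r := by positivity
  have hqe : q' * e ≤ 0.2 * (e * r) := by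
    have h1 := mul_le_mul_of_nonneg_right hq3 he0.le
    have h2 : 1.38 * (e * r) * e ≤ 1.38 * (e * r) * (1 / 7) :=
      mul_le_mul_of_nonneg_left he (by positivity)
    linarith
  -- lower bound for T
  have hnq3 : 0 ≤ -q3 := by
    have h2' : p2 ≥ r - (|T| + m) / 49 := by
      have := (abs_le.mp hA).1
      rw [h2]; linarith
    have h3' : |e * q4| ≤ m / 7 := by
      rw [abs_mul, abs_of_pos he0]
      nlinarith [abs_nonneg q4]
    have h4' := (abs_le.mp h3').1
    rw [h3]
    have := abs_nonneg T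
    linarith
  have hA2 : -(0.03 * (e * r)) ≤ e ^ 2 * (T - q3) := by
    have h1 : -|T| ≤ T - q3 := by have := neg_abs_le T; linarith
    have h2' : e ^ 2 * (-|T|) ≤ e ^ 2 * (T - q3) := mul_le_mul_of_nonneg_left h1 he20
    have h3' : e ^ 2 * |T| ≤ e / 7 * (0.2 * r) := by
      refine mul_le_mul he2' hT3 (abs_nonneg _) (by positivity)
    have : e / 7 * (0.2 * r) = 0.2 / 7 * (e * r) := by ring
    rw [this] at h3'
    linarith
  have hD2 : 0.84 * (e * r) ≤ py + r := by
    have h1 : (py + r) * (1 + e) = r * e + e ^ 2 * T := by linear_combination hy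
    have h3' : e ^ 2 * |T| ≤ e / 7 * (0.2 * r) := by
      refine mul_le_mul he2' hT3 (abs_nonneg _) (by positivity)
    have h4' : -(e ^ 2 * |T|) ≤ e ^ 2 * T := by
      have := mul_le_mul_of_nonneg_left (neg_abs_le T) he20
      linarith
    have h5 : 0.97 * (e * r) ≤ (py + r) * (1 + e) := by
      rw [h1]
      have : e / 7 * (0.2 * r) = 0.2 / 7 * (e * r) := by ring
      rw [this] at h3'
      have : r * e = e * r := by ring
      rw [this]
      linarith
    by_contra hcon
    push Not at hcon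
    have h6 : (py + r) * (1 + e) < 0.84 * (e * r) * (1 + e) :=
      mul_lt_mul_of_pos_right hcon (by linarith)
    have h7 : 0.84 * (e * r) * (1 + e) ≤ 0.84 * (e * r) * (8 / 7) :=
      mul_le_mul_of_nonneg_left (by linarith) (by positivity)
    linarith
  have hT4 : 0.29 * (e * r) ≤ T := by
    have h1 : 2 * T = e ^ 2 * (T - q3) + (py + r) + 2 * pz := by rw [hs, h2]; ring
    have h2' := neg_abs_le pz
    linarith
  have hTpos : 0 < T := by linarith
  have := mul_pos he0 hTpos
  linarith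

lemma real_k5 (a r t g2 gz gy g3 g4 g' g'' M2 : ℝ) (ha : 7 ≤ a) (hr : 0 < r)
    (hy : (a + 1) * gy = -(r - t)) (h2 : a * g2 = r + t - g3) (hz : (a - 1) * gz = 2 * t - g')
    (hs : 2 * a * t = g2 + gy + 2 * gz) (h3 : a * g3 = -g2 - g4) (h' : a * g' = -gz - g'')
    (b3 : |g3| ≤ M2) (b4 : |g4| ≤ M2) (b' : |g'| ≤ M2) (b'' : |g''| ≤ M2)
    (hm : (a - 1) * M2 ≤ max |g2| |gz|) : g' < (a + 1) * t := by
  have ha0 : 0 < a := by linarith
  have ha1 : a ≠ 0 := ha0.ne'
  have key := real_k5_scaled (1 / a) r (a ^ 2 * t) (a * g2) (a * gz) (a * gy) (a ^ 2 * g3)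
    (a ^ 2 * g4) (a ^ 2 * g') (a ^ 2 * g'') (a ^ 2 * M2) (a * max |g2| |gz|)
    (by positivity) (by rw [div_le_div_iff₀ ha0 (by norm_num)]; linarith) hr
    (by field_simp; linear_combination h2)
    (by field_simp; linear_combination hz)
    (by field_simp; linear_combination hy)
    (by linear_combination a * hs)
    (by field_simp; linear_combination h3)
    (by field_simp; linear_combination h')
    (by rw [abs_mul, abs_of_pos (by positivity : 0 < a ^ 2)]
        exact mul_le_mul_of_nonneg_left b3 (by positivity))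
    (by rw [abs_mul, abs_of_pos (by positivity : 0 < a ^ 2)]
        exact mul_le_mul_of_nonneg_left b4 (by positivity))
    (by rw [abs_mul, abs_of_pos (by positivity : 0 < a ^ 2)]
        exact mul_le_mul_of_nonneg_left b' (by positivity))
    (by rw [abs_mul, abs_of_pos (by positivity : 0 < a ^ 2)]
        exact mul_le_mul_of_nonneg_left b'' (by positivity))
    (by
      have : (1 - 1 / a) * (a ^ 2 * M2) = a * ((a - 1) * M2) := by field_simp
      rw [this]
      exact mul_le_mul_of_nonneg_left hm ha0.le)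
    (by
      rw [abs_mul, abs_mul, abs_of_pos ha0, mul_max_of_nonneg _ _ ha0.le])
  have e1 : a ^ 2 * g' * (1 / a) = a * g' := by field_simp
  have e2 : (1 + 1 / a) * (a ^ 2 * t) = a * ((a + 1) * t) := by field_simp
  rw [e1, e2] at key
  exact lt_of_mul_lt_mul_left key ha0.le

lemma real_k4 (a r t g2 gz gy g3 : ℝ) (ha : 6 ≤ a) (hr : 0 < r)
    (hy : (a + 1) * gy = -(r - t)) (h2 : a * g2 = r + t - g3) (hz : (a - 1) * gz = 2 * t - g3)
    (hs : 2 * a * t = g2 + gy + 2 * gz) (h3 : a * g3 = -g2 - gz) : g3 < (a + 1) * t := by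
  have I : g3 * (a ^ 3 - a ^ 2 - 2 * a + 1) = -(a - 1) * r - (3 * a - 1) * t := by
    linear_combination (a - 1) * a * h3 - (a - 1) * h2 - a * hz
  have II : t * (2 * a ^ 3 - 5 * a - 1) = -g3 * (a ^ 3 + 1) - (a - 1) * r := by
    linear_combination (a ^ 2 - 1) * hs + (a - 1) * hy + (a + 1) * hz + (a ^ 2 - 1) * h3
  have III : t * ((a ^ 3 - a ^ 2 - 2 * a + 1) * (2 * a ^ 3 - 5 * a - 1)
      - (a ^ 3 + 1) * (3 * a - 1)) = (a - 1) * r * (a ^ 2 + 2 * a) := by
    linear_combination (a ^ 3 - a ^ 2 - 2 * a + 1) * II - (a ^ 3 + 1) * I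
  obtain ⟨b, rfl⟩ : ∃ b, a = 6 + b := ⟨a - 6, by ring⟩
  have hb : 0 ≤ b := by linarith
  have hX : 0 < ((6 + b) ^ 3 - (6 + b) ^ 2 - 2 * (6 + b) + 1) * (2 * (6 + b) ^ 3 - 5 * (6 + b) - 1)
      - ((6 + b) ^ 3 + 1) * (3 * (6 + b) - 1) := by
    ring_nf
    positivity
  have hR : 0 < (6 + b - 1) * r * ((6 + b) ^ 2 + 2 * (6 + b)) := by
    have : 0 < 6 + b - 1 := by linarith
    positivity
  have ht : 0 < t := by
    rw [← III] at hR
    exact (pos_iff_pos_of_mul_pos hR).mpr hX
  have hD : 0 < (6 + b) ^ 3 - (6 + b) ^ 2 - 2 * (6 + b) + 1 := by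
    ring_nf
    positivity
  have hg3 : g3 < 0 := by
    by_contra hcon
    push Not at hcon
    have h1 : 0 ≤ g3 * ((6 + b) ^ 3 - (6 + b) ^ 2 - 2 * (6 + b) + 1) := mul_nonneg hcon hD.le
    rw [I] at h1
    have h2 : 0 < (6 + b - 1) * r := by
      have : 0 < 6 + b - 1 := by linarith
      positivity
    have h3 : 0 < (3 * (6 + b) - 1) * t := by
      have : 0 < 3 * (6 + b) - 1 := by linarith
      positivity
    linarith
  have : 0 < (6 + b + 1) * t := by positivity
  linarith

end Pool.Agent.W_MP_d15038_co
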