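import Pool.Agent.W_MP_d15038_co.Flow
import Pool.Agent.W_MP_d15038_co.RealK

set_option autoImplicit false
set_option linter.unusedSectionVars false

namespace Pool.Agent.W_MP_d15038_co

open Finset SimpleGraph

variable {V : Type*} [Fintype V] [DecidableEq V]

/-- Laplacian identity in complement form. -/
lemma lap_compl [Nonempty V] {E : Finset (Sym2 V)} (hE : ∀ e ∈ E, ¬ e.IsDiag) (u v x : V)
    (N : Finset V) (hN : ∀ y, s(x, y) ∈ E ↔ y ≠ x ∧ y ∉ N) (hx : x ∉ N) (g : V → ℝ)
    (hg : ∀ y, g y = ((res E u y : ℝ) - res E v y)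
      - (∑ w, ((res E u w : ℝ) - res E v w)) / Fintype.card V) :
    (Fintype.card V : ℝ) * g x - ∑ y ∈ N, (g x - g y)
      = 2 * (trees E).card * ((if x = v then 1 else 0) - (if x = u then 1 else 0)) := by
  rw [← laplacian_res hE u v x]
  have hcard : (Fintype.card V : ℝ) ≠ 0 := by
    have := Fintype.card_pos (α := V)
    positivity
  have h1 : univ.filter (fun y => s(x, y) ∈ E) = univ \ insert x N := by
    ext y
    simp only [mem_filter, mem_univ, true_and, mem_sdiff, mem_insert, not_or]
    exact hN y
  rw [h1]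
  have h2 : ∀ y, ((res E u x : ℝ) - res E v x) - ((res E u y : ℝ) - res E v y) = g x - g y := by
    intro y; rw [hg x, hg y]; ring
  simp_rw [h2]
  have h3 : ∑ y ∈ univ \ insert x N, (g x - g y) + ∑ y ∈ insert x N, (g x - g y)
      = ∑ y, (g x - g y) := Finset.sum_sdiff (Finset.subset_univ _)
  rw [Finset.sum_insert hx, sub_self, zero_add] at h3
  have h4 : ∑ y, g y = 0 := by
    simp_rw [hg]
    rw [Finset.sum_sub_distrib, Finset.sum_const, Finset.card_univ, nsmul_eq_mul]
    field_simp
    ring
  have h5 : ∑ y, (g x - g y) = (Fintype.card V : ℝ) * g x := by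
    rw [Finset.sum_sub_distrib, h4, Finset.sum_const, Finset.card_univ, nsmul_eq_mul, sub_zero]
  linarith

lemma conn_of_dense [Nonempty V] {E : Finset (Sym2 V)} (k : ℕ)
    (hk : ∀ x, (univ.filter fun y => y ≠ x ∧ s(x, y) ∉ E).card ≤ k)
    (hn : 2 * k < Fintype.card V) : (gr E).Connected := by
  refine ⟨fun x y => ?_⟩
  by_cases hxy : x = y
  · rw [hxy]
  by_cases hadj : s(x, y) ∈ E
  · exact (adj_gr hadj hxy).reachable
  · have hc : ((univ.filter fun w => w ≠ x ∧ s(x, w) ∉ E) ∪
        (univ.filter fun w => w ≠ y ∧ s(y, w) ∉ E)).card < (univ : Finset V).card := by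
      refine (Finset.card_union_le _ _).trans_lt ?_
      rw [Finset.card_univ]
      have := hk x
      have := hk y
      omega
    obtain ⟨w, -, hw⟩ := Finset.exists_mem_notMem_of_card_lt_card hc
    simp only [mem_union, mem_filter, mem_univ, true_and, not_or, not_and, not_not] at hw
    have hwx : x ≠ w := by
      rintro rfl
      exact hadj (by rw [Sym2.eq_swap]; exact hw.2 hxy)
    have hwy : y ≠ w := by
      rintro rfl
      exact hadj (hw.1 (Ne.symm hxy))
    exact (adj_gr (hw.1 hwx.symm) hwx).reachable.trans (adj_gr (hw.2 hwy.symm) hwy).reachable.symm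

open scoped Classical in
set_option maxHeartbeats 1000000 in
/-- Opening a cycle of length at least four of the complement onto a `K_2` component of the
complement increases the number of spanning trees. -/
theorem tree_ineq (H : SimpleGraph V) (E : Finset (Sym2 V))
    (hEH : ∀ x y, s(x, y) ∈ E ↔ x ≠ y ∧ ¬ H.Adj x y)
    (hn : 8 ≤ Fintype.card V)
    (hdeg : ∀ x, (H.neighborFinset x).card ≤ 2)
    (u z x2 x' v y2 x3 x4 x'' : V)
    (hu : H.neighborFinset u = {z, x2}) (hzx2 : z ≠ x2)
    (hz : H.neighborFinset z = {u, x'}) (hux' : u ≠ x')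
    (hx2x' : x2 ≠ x')
    (hx2 : H.neighborFinset x2 = {u, x3}) (hux3 : u ≠ x3)
    (hx' : H.neighborFinset x' = {z, x''}) (hzx'' : z ≠ x'')
    (hx3 : x3 ≠ x' → H.neighborFinset x3 = {x2, x4} ∧ x2 ≠ x4)
    (hv : H.neighborFinset v = {y2}) (hy : H.neighborFinset y2 = {v})
    (h9 : x3 ≠ x' → 9 ≤ Fintype.card V) :
    (trees E).card < (trees (insert s(u, z) (E.erase s(v, z)))).card := by
  have : Nonempty V := ⟨u⟩
  have hadj : ∀ x y, H.Adj x y ↔ y ∈ H.neighborFinset x := fun x y => by simp
  have cu : (H.neighborFinset u).card = 2 := by rw [hu]; exact Finset.card_pair hzx2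
  have cz : (H.neighborFinset z).card = 2 := by rw [hz]; exact Finset.card_pair hux'
  have cx2 : (H.neighborFinset x2).card = 2 := by rw [hx2]; exact Finset.card_pair hux3
  have cx' : (H.neighborFinset x').card = 2 := by rw [hx']; exact Finset.card_pair hzx''
  have cx3 : (H.neighborFinset x3).card = 2 := by
    by_cases h : x3 = x'
    · rw [h]; exact cx'
    · rw [(hx3 h).1]; exact Finset.card_pair (hx3 h).2
  have cv : (H.neighborFinset v).card = 1 := by rw [hv]; exact Finset.card_singleton _
  have cy : (H.neighborFinset y2).card = 1 := by rw [hy]; exact Finset.card_singleton _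
  have ne_of_card : ∀ a b : V, (H.neighborFinset a).card = 2 → (H.neighborFinset b).card = 1 →
      a ≠ b := by
    rintro a b h1 h2 rfl; omega
  have auv := ne_of_card u v cu cv
  have azv := ne_of_card z v cz cv
  have ax2v := ne_of_card x2 v cx2 cv
  have ax'v := ne_of_card x' v cx' cv
  have ax3v := ne_of_card x3 v cx3 cv
  have auy := ne_of_card u y2 cu cy
  have azy := ne_of_card z y2 cz cy
  have ax2y := ne_of_card x2 y2 cx2 cy
  have ax'y := ne_of_card x' y2 cx' cy
  have ax3y := ne_of_card x3 y2 cx3 cy
  have Auz : H.Adj u z := by rw [hadj, hu]; simp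
  have Aux2 : H.Adj u x2 := by rw [hadj, hu]; simp
  have Azx' : H.Adj z x' := by rw [hadj, hz]; simp
  have Ax2x3 : H.Adj x2 x3 := by rw [hadj, hx2]; simp
  have Ax'x'' : H.Adj x' x'' := by rw [hadj, hx']; simp
  have Avy : H.Adj v y2 := by rw [hadj, hv]; simp
  have hzx3 : z ≠ x3 := by
    rintro rfl
    have h := Ax2x3.symm
    rw [hadj, hz] at h
    simp only [mem_insert, mem_singleton] at h
    rcases h with h | h
    · exact Aux2.ne h.symm
    · exact hx2x' h
  have hux'' : u ≠ x'' := by
    rintro rfl
    have h := Ax'x''.symm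
    rw [hadj, hu] at h
    simp only [mem_insert, mem_singleton] at h
    rcases h with h | h
    · exact Azx'.ne h.symm
    · exact hx2x' h.symm
  set E0 := E.erase s(v, z) with hE0
  have hEd : ∀ e ∈ E, ¬ e.IsDiag := by
    intro e
    induction e using Sym2.ind with
    | _ a b =>
      intro h
      simpa using ((hEH a b).mp h).1
  have hE0d : ∀ e ∈ E0, ¬ e.IsDiag := fun e h => hEd e (Finset.mem_of_mem_erase h)
  have hvzE : s(v, z) ∈ E := by
    rw [hEH, hadj, hv]
    simp only [mem_singleton]
    exact ⟨azv.symm, azy⟩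
  have huzE : s(u, z) ∉ E0 := by
    intro h
    have := Finset.mem_of_mem_erase h
    rw [hEH] at this
    exact this.2 Auz
  -- neighbourhoods of E0
  have N_gen : ∀ x, x ≠ v → x ≠ z → ∀ y, s(x, y) ∈ E0 ↔ y ≠ x ∧ y ∉ H.neighborFinset x := by
    intro x hxv hxz y
    rw [hE0, Finset.mem_erase, hEH, hadj, Ne, Sym2.eq_iff]
    constructor
    · rintro ⟨-, h1, h2⟩; exact ⟨h1.symm, h2⟩
    · rintro ⟨h1, h2⟩
      refine ⟨?_, h1.symm, h2⟩
      rintro (⟨h3, -⟩ | ⟨h3, -⟩)
      · exact hxv h3
      · exact hxz h3
  have N_v : ∀ y, s(v, y) ∈ E0 ↔ y ≠ v ∧ y ∉ ({y2, z} : Finset V) := by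
    intro y
    rw [hE0, Finset.mem_erase, hEH, hadj, hv, Ne, Sym2.eq_iff]
    simp only [mem_insert, mem_singleton]
    constructor
    · rintro ⟨h1, h2, h3⟩
      refine ⟨h2.symm, ?_⟩
      rintro (h | h)
      · exact h3 h
      · exact h1 (Or.inl ⟨trivial, h⟩)
    · rintro ⟨h1, h2⟩
      push Not at h2
      refine ⟨?_, h1.symm, h2.1⟩
      rintro (⟨-, h⟩ | ⟨h, -⟩)
      · exact h2.2 h
      · exact azv h.symm
  have N_z : ∀ y, s(z, y) ∈ E0 ↔ y ≠ z ∧ y ∉ ({u, x', v} : Finset V) := by
    intro y
    rw [hE0, Finset.mem_erase, hEH, hadj, hz, Ne, Sym2.eq_iff]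
    simp only [mem_insert, mem_singleton]
    constructor
    · rintro ⟨h1, h2, h3⟩
      push Not at h3
      refine ⟨h2.symm, ?_⟩
      rintro (h | h | h)
      · exact h3.1 h
      · exact h3.2 h
      · exact h1 (Or.inr ⟨trivial, h⟩)
    · rintro ⟨h1, h2⟩
      push Not at h2
      refine ⟨?_, h1.symm, ?_⟩
      · rintro (⟨h, -⟩ | ⟨-, h⟩)
        · exact azv h
        · exact h2.2.2 h
      · push Not; exact ⟨h2.1, h2.2.1⟩
  -- tree counts
  have hEins : insert s(v, z) E0 = E := Finset.insert_erase hvzE
  have t1 : (trees E).card = (trees E0).card + res E0 v z := by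
    rw [← hEins]
    exact trees_insert hE0d azv.symm (Finset.notMem_erase _ _)
  have t2 : (trees (insert s(u, z) E0)).card = (trees E0).card + res E0 u z :=
    trees_insert hE0d Auz.ne huzE
  rw [t1, t2]
  suffices hlt : (res E0 v z : ℝ) < res E0 u z by
    have : res E0 v z < res E0 u z := by exact_mod_cast hlt
    omega
  -- connectivity
  have hconn : (gr E0).Connected := by
    refine conn_of_dense 3 ?_ (by omega)
    intro x
    by_cases hxv : x = v
    · have : (univ.filter fun y => y ≠ x ∧ s(x, y) ∉ E0) ⊆ {y2, z} := by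
        intro y
        simp only [mem_filter, mem_univ, true_and]
        rintro ⟨h1, h2⟩
        by_contra h3
        rw [hxv] at h1 h2
        exact h2 ((N_v y).mpr ⟨h1, h3⟩)
      exact (Finset.card_le_card this).trans (Finset.card_le_two.trans (by norm_num))
    by_cases hxz : x = z
    · have : (univ.filter fun y => y ≠ x ∧ s(x, y) ∉ E0) ⊆ {u, x', v} := by
        intro y
        simp only [mem_filter, mem_univ, true_and]
        rintro ⟨h1, h2⟩
        by_contra h3
        rw [hxz] at h1 h2
        exact h2 ((N_z y).mpr ⟨h1, h3⟩)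
      exact (Finset.card_le_card this).trans Finset.card_le_three
    · have : (univ.filter fun y => y ≠ x ∧ s(x, y) ∉ E0) ⊆ H.neighborFinset x := by
        intro y
        simp only [mem_filter, mem_univ, true_and]
        rintro ⟨h1, h2⟩
        by_contra h3
        exact h2 ((N_gen x hxv hxz y).mpr ⟨h1, h3⟩)
      exact (Finset.card_le_card this).trans ((hdeg x).trans (by norm_num))
  have htau : 0 < (trees E0).card := trees_pos hconn
  have htau' : (0 : ℝ) < (trees E0).card := by exact_mod_cast htau
  -- potentials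
  set ρ : V → ℝ := fun y => (res E0 u y : ℝ) - res E0 v y with hρ
  set t : ℝ := (∑ w, ρ w) / Fintype.card V with ht
  set g : V → ℝ := fun y => ρ y - t with hg
  have lap := fun (x : V) (N : Finset V) hN hx => lap_compl hE0d u v x N hN hx g (fun y => rfl)
  set n : ℝ := (Fintype.card V : ℝ) with hnn
  set r : ℝ := (res E0 u v : ℝ) with hr
  have hn8 : (8 : ℝ) ≤ n := by rw [hnn]; exact_mod_cast hn
  have gu : g u = -r - t := by
    simp only [hg, hρ, res_self, hr]; rw [res_comm E0 v u]; push_cast; ring
  have gv : g v = r - t := by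
    simp only [hg, hρ, res_self, hr]; push_cast; ring
  have Hu := lap u {z, x2} (fun y => by rw [N_gen u auv Auz.ne, hu])
    (by simp only [mem_insert, mem_singleton]; push Not; exact ⟨Auz.ne, Aux2.ne⟩)
  have Hv := lap v {y2, z} N_v
    (by simp only [mem_insert, mem_singleton]; push Not; exact ⟨Avy.ne, azv.symm⟩)
  have Hz := lap z {u, x', v} N_z
    (by simp only [mem_insert, mem_singleton]; push Not; exact ⟨Auz.ne.symm, Azx'.ne, azv⟩)
  have Hy := lap y2 {v} (fun y => by rw [N_gen y2 Avy.ne.symm azy.symm, hy])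
    (by simp only [mem_singleton]; exact Avy.ne.symm)
  have Hx2 := lap x2 {u, x3} (fun y => by rw [N_gen x2 ax2v hzx2.symm, hx2])
    (by simp only [mem_insert, mem_singleton]; push Not; exact ⟨Aux2.ne.symm, Ax2x3.ne⟩)
  have Hx' := lap x' {z, x''} (fun y => by rw [N_gen x' ax'v Azx'.ne.symm, hx'])
    (by simp only [mem_insert, mem_singleton]; push Not; exact ⟨Azx'.ne.symm, Ax'x''.ne⟩)
  rw [Finset.sum_pair hzx2, if_neg auv, if_pos rfl] at Hu
  rw [Finset.sum_pair azy.symm, if_pos rfl, if_neg auv.symm] at Hv
  rw [Finset.sum_insert (by simp only [mem_insert, mem_singleton]; push Not; exact ⟨hux', auv⟩),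
    Finset.sum_pair ax'v, if_neg azv, if_neg Auz.ne.symm] at Hz
  rw [Finset.sum_singleton, if_neg Avy.ne.symm, if_neg auy.symm] at Hy
  rw [Finset.sum_pair hux3, if_neg ax2v, if_neg Aux2.ne.symm] at Hx2
  rw [Finset.sum_pair hzx'', if_neg ax'v, if_neg hux'.symm] at Hx'
  have bnd : ∀ x, |ρ x| ≤ r := by
    intro x
    have h1 := res_sub_le E0 u v x
    have h2 := res_sub_le E0 v u x
    rw [res_comm E0 v u] at h2
    have h1' : (res E0 u x : ℝ) ≤ res E0 v x + r := by rw [hr]; exact_mod_cast h1
    have h2' : (res E0 v x : ℝ) ≤ res E0 u x + r := by rw [hr]; exact_mod_cast h2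
    rw [abs_le]
    constructor <;> simp only [hρ] <;> linarith
  have hrpos : 0 < r := by
    have hr0 : 0 ≤ r := by rw [hr]; positivity
    rcases hr0.lt_or_eq with h | h
    · exact h
    · exfalso
      have hz0 : ∀ x, ρ x = 0 := by
        intro x
        have := bnd x
        rw [← h] at this
        exact abs_nonpos_iff.mp this
      have ht0 : t = 0 := by rw [ht]; simp [hz0]
      have hg0 : ∀ x, g x = 0 := by intro x; simp [hg, hz0, ht0]
      simp only [hg0] at Hv
      linarith
  -- the goal in terms of potentials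
  have hρz : ρ z = (res E0 u z : ℝ) - res E0 v z := rfl
  suffices hz0 : 0 < ρ z by linarith
  have hρz' : ρ z = g z + t := by simp [hg]
  rw [hρz']
  -- rewrite the equations with a = n - 2
  have ey : ((n - 2) + 1) * g y2 = -(r - t) := by rw [gv] at Hy; linarith
  have e2 : (n - 2) * g x2 = r + t - g x3 := by rw [gu] at Hx2; linarith
  have ez : ((n - 2) - 1) * g z = 2 * t - g x' := by rw [gu, gv] at Hz; linarith
  have es : 2 * (n - 2) * t = g x2 + g y2 + 2 * g z := by
    rw [gu] at Hu; rw [gv] at Hv; linarith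
  have e' : (n - 2) * g x' = -g z - g x'' := by linarith
  by_cases h34 : x3 = x'
  · -- four cycle
    have hx''2 : x'' = x2 := by
      have h : x2 ∈ H.neighborFinset x' := by
        rw [← hadj, ← h34]; exact Ax2x3.symm
      rw [hx'] at h
      simp only [mem_insert, mem_singleton] at h
      rcases h with h | h
      · exact absurd h.symm hzx2
      · exact h.symm
    rw [hx''2] at e'
    rw [h34] at e2
    have := real_k4 (n - 2) r t (g x2) (g z) (g y2) (g x') (by linarith) hrpos ey e2 ez es
      (by linarith)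
    nlinarith
  · -- longer cycles
    have hn9 : (9 : ℝ) ≤ n := by rw [hnn]; exact_mod_cast h9 h34
    obtain ⟨hx3', hx24⟩ := hx3 h34
    have Ax3x4 : H.Adj x3 x4 := by rw [hadj, hx3']; simp
    have Hx3 := lap x3 {x2, x4} (fun y => by rw [N_gen x3 ax3v hzx3.symm, hx3'])
      (by simp only [mem_insert, mem_singleton]; push Not; exact ⟨Ax2x3.ne.symm, Ax3x4.ne⟩)
    rw [Finset.sum_pair hx24, if_neg ax3v, if_neg hux3.symm] at Hx3
    have e3 : (n - 2) * g x3 = -g x2 - g x4 := by linarith
    -- the far region
    set L : Finset V := univ \ {u, v, x2, y2, z} with hL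
    have memL : ∀ x, x ∈ L ↔ x ≠ u ∧ x ≠ v ∧ x ≠ x2 ∧ x ≠ y2 ∧ x ≠ z := by
      intro x
      simp only [hL, mem_sdiff, mem_univ, true_and, mem_insert, mem_singleton]
      push Not
      rfl
    have m3 : x3 ∈ L := (memL x3).mpr ⟨hux3.symm, ax3v, Ax2x3.ne.symm, ax3y, hzx3.symm⟩
    have m' : x' ∈ L := (memL x').mpr ⟨hux'.symm, ax'v, hx2x'.symm, ax'y, Azx'.ne.symm⟩
    -- neighbours of far vertices
    have nbr : ∀ a b, a ∈ L → H.Adj a b → b ∈ L ∨ (b = x2 ∧ a = x3) ∨ (b = z ∧ a = x') := by
      intro a b ha hab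
      obtain ⟨h1, h2, h3, h4, h5⟩ := (memL a).mp ha
      by_cases hb : b ∈ L
      · exact Or.inl hb
      right
      rw [memL] at hb
      have hba := hab.symm
      by_cases b1 : b = u
      · rw [b1, hadj, hu] at hba
        simp only [mem_insert, mem_singleton] at hba
        rcases hba with h | h
        · exact absurd h h5
        · exact absurd h h3
      by_cases b2 : b = v
      · rw [b2, hadj, hv] at hba
        simp only [mem_singleton] at hba
        exact absurd hba h4
      by_cases b4 : b = y2
      · rw [b4, hadj, hy] at hba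
        simp only [mem_singleton] at hba
        exact absurd hba h2
      by_cases b3 : b = x2
      · left
        rw [b3, hadj, hx2] at hba
        simp only [mem_insert, mem_singleton] at hba
        rcases hba with h | h
        · exact absurd h h1
        · exact ⟨b3, h⟩
      by_cases b5 : b = z
      · right
        rw [b5, hadj, hz] at hba
        simp only [mem_insert, mem_singleton] at hba
        rcases hba with h | h
        · exact absurd h h1
        · exact ⟨b5, h⟩
      exact absurd ⟨b1, b2, b3, b4, b5⟩ hb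
    have m4 : x4 ∈ L := by
      rcases nbr x3 x4 m3 Ax3x4 with h | ⟨h, -⟩ | ⟨-, h⟩
      · exact h
      · exact absurd h.symm hx24
      · exact absurd h h34
    have m'' : x'' ∈ L := by
      rcases nbr x' x'' m' Ax'x'' with h | ⟨-, h⟩ | ⟨h, -⟩
      · exact h
      · exact absurd h.symm h34
      · exact absurd h.symm hzx''
    obtain ⟨w, hwL, hmax⟩ := L.exists_max_image (fun x => |g x|) ⟨x3, m3⟩
    have hM : ((n - 2) - 1) * |g w| ≤ max |g x2| |g z| := by
      rcases eq_or_ne w x3 with hw3 | hw3
      · have h1 : (n - 2) * |g x3| ≤ |g x2| + |g w| := by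
          have : (n - 2) * |g x3| = |-g x2 - g x4| := by
            rw [← e3, abs_mul, abs_of_nonneg (by linarith : (0:ℝ) ≤ n - 2)]
          rw [this]
          refine (abs_sub _ _).trans ?_
          rw [abs_neg]
          have := hmax x4 m4
          linarith
        rw [← hw3] at h1
        have := le_max_left |g x2| |g z|
        linarith
      rcases eq_or_ne w x' with hw' | hw'
      · have h1 : (n - 2) * |g x'| ≤ |g z| + |g w| := by
          have : (n - 2) * |g x'| = |-g z - g x''| := by
            rw [← e', abs_mul, abs_of_nonneg (by linarith : (0:ℝ) ≤ n - 2)]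
          rw [this]
          refine (abs_sub _ _).trans ?_
          rw [abs_neg]
          have := hmax x'' m''
          linarith
        rw [← hw'] at h1
        have := le_max_right |g x2| |g z|
        linarith
      · obtain ⟨h1, h2, -, -, h5⟩ := (memL w).mp hwL
        have Hw := lap w (H.neighborFinset w) (N_gen w h2 h5) (by simp)
        rw [if_neg h2, if_neg h1, Finset.sum_sub_distrib, Finset.sum_const, nsmul_eq_mul] at Hw
        have h6 : (n - (H.neighborFinset w).card) * g w = -∑ y ∈ H.neighborFinset w, g y := by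
          linarith
        have hc2 : ((H.neighborFinset w).card : ℝ) ≤ 2 := by exact_mod_cast hdeg w
        have h7 : (n - (H.neighborFinset w).card) * |g w| ≤ (H.neighborFinset w).card * |g w| := by
          have : (n - (H.neighborFinset w).card) * |g w| = |∑ y ∈ H.neighborFinset w, g y| := by
            rw [← abs_neg (∑ y ∈ H.neighborFinset w, g y), ← h6, abs_mul,
              abs_of_nonneg (by linarith : (0:ℝ) ≤ n - (H.neighborFinset w).card)]
          rw [this]
          refine (Finset.abs_sum_le_sum_abs _ _).trans ?_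
          rw [← nsmul_eq_mul]
          refine Finset.sum_le_card_nsmul _ _ _ ?_
          intro y hyw
          rw [← hadj] at hyw
          rcases nbr w y hwL hyw with h | ⟨-, h⟩ | ⟨-, h⟩
          · exact hmax y h
          · exact absurd h hw3
          · exact absurd h hw'
        have h8 : |g w| ≤ 0 := by
          have := abs_nonneg (g w)
          nlinarith
        have h9' : |g w| = 0 := le_antisymm h8 (abs_nonneg _)
        rw [h9', mul_zero]
        exact le_max_of_le_left (abs_nonneg _)
    have := real_k5 (n - 2) r t (g x2) (g z) (g y2) (g x3) (g x4) (g x') (g x'') |g w|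
      (by linarith) hrpos ey e2 ez es e3 e' (hmax x3 m3) (hmax x4 m4) (hmax x' m') (hmax x'' m'') hM
    nlinarith

end Pool.Agent.W_MP_d15038_co
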