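import Pool.Agent.W_MP_d15038_co.Ref
import Pool.Agent.W_MP_d15038_co.Poly
import Pool.Agent.W_MP_d15038_co.TreeIneq

set_option autoImplicit false
set_option linter.unusedSectionVars false

namespace Pool.Agent.W_MP_d15038_co

open Finset SimpleGraph
open scoped Classical

variable {V : Type*} [Fintype V] [DecidableEq V]

/-- size of a star family -/
lemma starSets_card {E : Finset (Sym2 V)} {H : SimpleGraph V} (hco : IsCo E H) (j : ℕ) (x : V) :
    (starSets E j x).card =
      if Fintype.card V ≤ j + (H.neighborFinset x).card + 1 then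
        (E.card - (Fintype.card V - 1 - (H.neighborFinset x).card)).choose
          (j - (Fintype.card V - 1 - (H.neighborFinset x).card))
      else 0 := by
  have h1 := hco.card_bd_single x
  have h2 : (bd E {x}).card = Fintype.card V - 1 - (H.neighborFinset x).card := by omega
  rw [starSets, card_superset _ _ (bd_subset _ _), h2]
  by_cases h : Fintype.card V ≤ j + (H.neighborFinset x).card + 1
  · rw [if_pos h, if_pos (by omega)]
  · rw [if_neg h, if_neg (by omega)]

lemma disc_of_bd {E : Finset (Sym2 V)} (hn : 2 ≤ Fintype.card V) (x : V) :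
    1 ≤ (disc E (bd E {x}).card).card := by
  have : Nonempty V := ⟨x⟩
  rw [Nat.one_le_iff_ne_zero, ← Nat.pos_iff_ne_zero, Finset.card_pos]
  refine ⟨bd E {x}, ?_⟩
  simp only [disc, mem_filter, mem_powersetCard]
  refine ⟨⟨bd_subset _ _, trivial⟩, ?_⟩
  rw [disc_sdiff_iff]
  refine ⟨{x}, by simp, ?_, Finset.Subset.refl _⟩
  rw [← Finset.card_pos, Finset.card_compl, Finset.card_singleton]
  omega

lemma sum_star_eq {E : Finset (Sym2 V)} {H : SimpleGraph V} (hco : IsCo E H) (j N : ℕ)
    (h12 : ∀ x, (H.neighborFinset x).card = 1 ∨ (H.neighborFinset x).card = 2)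
    (hN : (univ.filter fun x => (H.neighborFinset x).card = 2).card = N) :
    ∑ x, (starSets E j x).card =
      N * (if Fintype.card V ≤ j + 2 + 1 then
        (E.card - (Fintype.card V - 1 - 2)).choose (j - (Fintype.card V - 1 - 2)) else 0)
      + (Fintype.card V - N) * (if Fintype.card V ≤ j + 1 + 1 then
        (E.card - (Fintype.card V - 1 - 1)).choose (j - (Fintype.card V - 1 - 1)) else 0) := by
  rw [← Finset.sum_filter_add_sum_filter_not univ (fun x => (H.neighborFinset x).card = 2)]
  congr 1
  · rw [← hN, ← smul_eq_mul, ← Finset.sum_const]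
    refine Finset.sum_congr rfl fun x hx => ?_
    simp only [mem_filter, mem_univ, true_and] at hx
    rw [starSets_card hco, hx]
  · have hc : (univ.filter fun x => ¬ (H.neighborFinset x).card = 2).card = Fintype.card V - N := by
      have := Finset.card_filter_add_card_filter_not (s := (univ : Finset V))
        (fun x => (H.neighborFinset x).card = 2)
      rw [Finset.card_univ, hN] at this
      omega
    rw [← hc, ← smul_eq_mul, ← Finset.sum_const]
    refine Finset.sum_congr rfl fun x hx => ?_
    simp only [mem_filter, mem_univ, true_and] at hx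
    have h1 : (H.neighborFinset x).card = 1 := by
      rcases h12 x with h | h
      · exact h
      · exact absurd h hx
    rw [starSets_card hco, h1]

/-- counting the pairs -/
lemma Qset_count {H : SimpleGraph V} (hdeg : ∀ x, (H.neighborFinset x).card ≤ 2) (N : ℕ)
    (hN : (univ.filter fun x => (H.neighborFinset x).card = 2).card = N) :
    2 * (Qset H).card + ∑ x ∈ univ.filter (fun x => (H.neighborFinset x).card = 2),
      ((H.neighborFinset x).filter fun y => (H.neighborFinset y).card = 2).card + N = N * N := by
  set D := univ.filter (fun x => (H.neighborFinset x).card = 2) with hD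
  have memD : ∀ x, x ∈ D ↔ (H.neighborFinset x).card = 2 := by
    intro x
    rw [hD, mem_filter]
    simp only [mem_univ, true_and]
  -- off-diagonal pairs
  have h1 : D.offDiag.card + N = N * N := by
    rw [Finset.offDiag_card, hN]
    have : N ≤ N * N := Nat.le_mul_self N
    omega
  have h2 : (D.offDiag.filter fun p => H.Adj p.1 p.2).card
      = ∑ x ∈ D, ((H.neighborFinset x).filter fun y => (H.neighborFinset y).card = 2).card := by
    rw [← Finset.card_sigma]
    refine Finset.card_bij' (fun p _ => ⟨p.1, p.2⟩) (fun q _ => (q.1, q.2)) ?_ ?_ ?_ ?_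
    · rintro ⟨x, y⟩ h
      simp only [mem_filter, mem_offDiag] at h
      simp only [mem_sigma, mem_filter, mem_neighborFinset]
      exact ⟨h.1.1, h.2, (memD y).mp h.1.2.1⟩
    · rintro ⟨x, y⟩ h
      simp only [mem_sigma, mem_filter, mem_neighborFinset] at h
      simp only [mem_filter, mem_offDiag]
      exact ⟨⟨h.1, (memD y).mpr h.2.2, h.2.1.ne⟩, h.2.1⟩
    · rintro ⟨x, y⟩ h; rfl
    · rintro ⟨x, y⟩ h; rfl
  have h3 : (D.offDiag.filter fun p => ¬ H.Adj p.1 p.2).card = 2 * (Qset H).card := by
    have hmap : ∀ p ∈ (D.offDiag.filter fun p => ¬ H.Adj p.1 p.2),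
        (fun p : V × V => ({p.1, p.2} : Finset V)) p ∈ Qset H := by
      rintro ⟨x, y⟩ h
      simp only [mem_filter, mem_offDiag] at h
      simp only [Qset, mem_filter, mem_powersetCard, subset_univ, true_and]
      refine ⟨Finset.card_pair h.1.2.2, ?_⟩
      rw [card_bdH_pair_eq_four_iff H hdeg h.1.2.2]
      exact ⟨(memD x).mp h.1.1, (memD y).mp h.1.2.1, h.2⟩
    rw [Finset.card_eq_sum_card_fiberwise hmap]
    have : ∀ P ∈ Qset H, ((D.offDiag.filter fun p => ¬ H.Adj p.1 p.2).filter
        fun p => ({p.1, p.2} : Finset V) = P).card = 2 := by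
      intro P hP
      simp only [Qset, mem_filter, mem_powersetCard, subset_univ, true_and] at hP
      obtain ⟨x, y, hxy, rfl⟩ := Finset.card_eq_two.mp hP.1
      have h4 := (card_bdH_pair_eq_four_iff H hdeg hxy).mp hP.2
      have : ((D.offDiag.filter fun p => ¬ H.Adj p.1 p.2).filter
        fun p => ({p.1, p.2} : Finset V) = {x, y}) = {(x, y), (y, x)} := by
        ext ⟨a, b⟩
        simp only [mem_filter, mem_offDiag, mem_insert, mem_singleton, Prod.mk.injEq]
        constructor
        · rintro ⟨⟨⟨-, -, hab⟩, -⟩, h⟩
          have ha : a ∈ ({x, y} : Finset V) := by rw [← h]; simp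
          have hb : b ∈ ({x, y} : Finset V) := by rw [← h]; simp
          simp only [mem_insert, mem_singleton] at ha hb
          rcases ha with rfl | rfl <;> rcases hb with rfl | rfl
          · exact absurd rfl hab
          · exact Or.inl ⟨rfl, rfl⟩
          · exact Or.inr ⟨rfl, rfl⟩
          · exact absurd rfl hab
        · rintro (⟨rfl, rfl⟩ | ⟨rfl, rfl⟩)
          · exact ⟨⟨⟨(memD _).mpr h4.1, (memD _).mpr h4.2.1, hxy⟩, h4.2.2⟩, rfl⟩
          · exact ⟨⟨⟨(memD _).mpr h4.2.1, (memD _).mpr h4.1, hxy.symm⟩,
              fun h => h4.2.2 h.symm⟩, Finset.pair_comm _ _⟩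
      rw [this]
      apply Finset.card_pair
      intro h
      rw [Prod.mk.injEq] at h
      exact hxy h.1
    rw [Finset.sum_congr rfl this, Finset.sum_const, smul_eq_mul, mul_comm]
  have h4 := Finset.card_filter_add_card_filter_not (s := D.offDiag) (fun p => H.Adj p.1 p.2)
  omega

/-- If every vertex of degree two lies in a triangle then their number is divisible by three. -/
lemma three_dvd {H : SimpleGraph V} (N : ℕ)
    (hN : (univ.filter fun x => (H.neighborFinset x).card = 2).card = N)
    (htri : ∀ u z a b, H.neighborFinset u = {z, a} → z ≠ a → H.neighborFinset z = {u, b} →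
      u ≠ b → a = b)
    (hcl : ∀ x y, H.Adj x y → (H.neighborFinset x).card = 2 → (H.neighborFinset y).card = 2) :
    3 ∣ N := by
  set D := univ.filter (fun x => (H.neighborFinset x).card = 2) with hD
  have memD : ∀ x, x ∈ D ↔ (H.neighborFinset x).card = 2 := by
    intro x
    rw [hD, mem_filter]
    simp only [mem_univ, true_and]
  set T : V → Finset V := fun u => insert u (H.neighborFinset u) with hT
  -- other neighbour
  have other : ∀ x y, H.Adj x y → (H.neighborFinset x).card = 2 →
      ∃ a, y ≠ a ∧ H.neighborFinset x = {y, a} := by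
    intro x y hxy hx
    have hy : y ∈ H.neighborFinset x := by rwa [mem_neighborFinset]
    have h1 : ((H.neighborFinset x).erase y).card = 1 := by
      rw [Finset.card_erase_of_mem hy, hx]
    obtain ⟨a, ha⟩ := Finset.card_eq_one.mp h1
    refine ⟨a, ?_, ?_⟩
    · have : a ∈ (H.neighborFinset x).erase y := by rw [ha]; simp
      exact (Finset.ne_of_mem_erase this).symm
    · rw [← Finset.insert_erase hy, ha]
  have hTeq : ∀ u ∈ D, ∀ w ∈ T u, w ∈ D ∧ T w = T u := by
    intro u hu w hw
    rw [memD] at hu
    simp only [hT, mem_insert] at hw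
    rcases hw with rfl | hw
    · exact ⟨(memD _).mpr hu, rfl⟩
    · rw [mem_neighborFinset] at hw
      have hw2 := hcl u w hw hu
      obtain ⟨a, hwa, hua⟩ := other u w hw hu
      obtain ⟨b, hub, hwb⟩ := other w u hw.symm hw2
      have hab := htri u w a b hua hwa hwb hub
      refine ⟨(memD _).mpr hw2, ?_⟩
      simp only [hT]
      rw [hua, hwb, hab]
      ext t
      simp only [mem_insert, mem_singleton]
      tauto
  have hTcard : ∀ u ∈ D, (T u).card = 3 := by
    intro u hu
    rw [memD] at hu
    simp only [hT]
    rw [Finset.card_insert_of_notMem (by simp), hu]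
  rw [← hN, Finset.card_eq_sum_card_image T D]
  apply Finset.dvd_sum
  intro S hS
  rw [Finset.mem_image] at hS
  obtain ⟨u, hu, rfl⟩ := hS
  have : D.filter (fun w => T w = T u) = T u := by
    ext w
    simp only [mem_filter]
    constructor
    · rintro ⟨-, h⟩
      rw [← h]; simp [hT]
    · intro hw
      exact hTeq u hu w hw
  rw [this, hTcard u hu]

end Pool.Agent.W_MP_d15038_co
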