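import Mathlib

/-!
Counting spanning trees and two-component spanning forests; a discrete harmonicity identity.
-/

set_option autoImplicit false
set_option linter.unusedSectionVars false

namespace Pool.Agent.W_MP_d15038_co

open Finset SimpleGraph

variable {V : Type*} [Fintype V] [DecidableEq V]

/-- the spanning subgraph with edge set `S` -/
abbrev gr (S : Finset (Sym2 V)) : SimpleGraph V := SimpleGraph.fromEdgeSet (S : Set (Sym2 V))

open scoped Classical in
/-- spanning trees inside the edge set `E` -/
noncomputable def trees (E : Finset (Sym2 V)) : Finset (Finset (Sym2 V)) :=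
  E.powerset.filter fun T => (gr T).IsTree

open scoped Classical in
/-- acyclic sets with two components -/
noncomputable def for2 (E : Finset (Sym2 V)) : Finset (Finset (Sym2 V)) :=
  E.powerset.filter fun F => (gr F).IsAcyclic ∧ F.card + 2 = Fintype.card V

lemma gr_insert (F : Finset (Sym2 V)) (a b : V) :
    gr (insert s(a, b) F) = gr F ⊔ edge a b := by
  ext x y
  simp only [gr, fromEdgeSet_adj, coe_insert, Set.mem_insert_iff, sup_adj, edge_adj]
  constructor
  · rintro ⟨h | h, hne⟩
    · right
      rw [Sym2.eq_iff] at h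
      refine ⟨?_, hne⟩
      tauto
    · left
      exact ⟨h, hne⟩
  · rintro (⟨h, hne⟩ | ⟨h, hne⟩)
    · exact ⟨Or.inr h, hne⟩
    · refine ⟨Or.inl ?_, hne⟩
      rw [Sym2.eq_iff]
      tauto

lemma edgeSet_gr {S : Finset (Sym2 V)} (hS : ∀ e ∈ S, ¬ e.IsDiag) :
    (gr S).edgeSet = (S : Set (Sym2 V)) := by
  rw [gr, edgeSet_fromEdgeSet]
  ext e
  simp only [Set.mem_sdiff, mem_coe, Sym2.mem_diagSet]
  constructor
  · exact fun h => h.1
  · exact fun h => ⟨h, hS e h⟩

lemma natCard_edgeSet_gr {S : Finset (Sym2 V)} (hS : ∀ e ∈ S, ¬ e.IsDiag) :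
    Nat.card (gr S).edgeSet = S.card := by
  rw [edgeSet_gr hS]
  simp

/-- a tree has the right number of edges -/
lemma card_of_isTree {S : Finset (Sym2 V)} (hS : ∀ e ∈ S, ¬ e.IsDiag) (h : (gr S).IsTree) :
    S.card + 1 = Fintype.card V := by
  have := (isTree_iff_connected_and_card.mp h).2
  rw [natCard_edgeSet_gr hS] at this
  simpa using this

/-- acyclic with `n-1` edges is a tree -/
lemma isTree_of_acyclic_card [Nonempty V] {S : Finset (Sym2 V)} (hS : ∀ e ∈ S, ¬ e.IsDiag)
    (h : (gr S).IsAcyclic) (hc : S.card + 1 = Fintype.card V) : (gr S).IsTree := by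
  obtain ⟨T, hST, -, hT⟩ := (connected_top (V := V)).exists_isTree_le_of_le_of_isAcyclic
    (le_top : gr S ≤ ⊤) h
  have hcT := (isTree_iff_connected_and_card.mp hT).2
  have h1 : (gr S).edgeSet ⊆ T.edgeSet := edgeSet_mono hST
  have h2 : (gr S).edgeSet = T.edgeSet := by
    apply Set.eq_of_subset_of_ncard_le h1
    · have e1 : T.edgeSet.ncard + 1 = Fintype.card V := by
        rw [← Nat.card_coe_set_eq, hcT]; simp
      have e2 : (gr S).edgeSet.ncard = S.card := by
        rw [← Nat.card_coe_set_eq, natCard_edgeSet_gr hS]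
      omega
  have h3 : gr S = T := edgeSet_injective h2
  rw [h3]; exact hT

lemma not_adj_of_not_mem {F : Finset (Sym2 V)} {a b : V} (h : s(a, b) ∉ F) :
    ¬ (gr F).Adj a b := by
  simp [gr, fromEdgeSet_adj, h]

/-- key lemma: adding an edge to get a tree -/
lemma isTree_insert_iff [Nonempty V] {F : Finset (Sym2 V)} (hF : ∀ e ∈ F, ¬ e.IsDiag) {a b : V}
    (hab : a ≠ b) (he : s(a, b) ∉ F) :
    (gr (insert s(a, b) F)).IsTree ↔
      ((gr F).IsAcyclic ∧ F.card + 2 = Fintype.card V) ∧ ¬ (gr F).Reachable a b := by
  have hF' : ∀ e ∈ insert s(a, b) F, ¬ e.IsDiag := by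
    intro e he'
    rcases Finset.mem_insert.mp he' with rfl | h
    · simpa using hab
    · exact hF e h
  have hcard : (insert s(a, b) F).card = F.card + 1 := Finset.card_insert_of_notMem he
  constructor
  · intro h
    have hac := h.isAcyclic
    rw [gr_insert, isAcyclic_sup_fromEdgeSet_iff] at hac
    have hc := card_of_isTree hF' h
    refine ⟨⟨hac.1, by omega⟩, ?_⟩
    intro hr
    rcases hac.2 hr with h1 | h1
    · exact hab h1
    · exact not_adj_of_not_mem he h1
  · rintro ⟨⟨h1, h2⟩, h3⟩
    apply isTree_of_acyclic_card hF'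
    · rw [gr_insert]
      exact h1.sup_edge_of_not_reachable h3
    · omega

/-- reachability after adding one edge -/
lemma reachable_sup_edge {G : SimpleGraph V} {a b x y : V}
    (h : (G ⊔ edge a b).Reachable x y) (hx : ¬ G.Reachable x y) :
    (G.Reachable x a ∧ G.Reachable b y) ∨ (G.Reachable x b ∧ G.Reachable a y) := by
  obtain ⟨p⟩ := h
  induction p with
  | nil => exact absurd (Reachable.refl _) hx
  | @cons u v w hadj p ih =>
    by_cases hvw : G.Reachable v w
    · -- the first step is not in G
      have hnuv : ¬ G.Adj u v := fun h' => hx (h'.reachable.trans hvw)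
      rw [sup_adj, edge_adj] at hadj
      rcases hadj with h' | ⟨h', -⟩
      · exact absurd h' hnuv
      · rcases h' with ⟨rfl, rfl⟩ | ⟨rfl, rfl⟩
        · left; exact ⟨Reachable.refl _, hvw⟩
        · right; exact ⟨Reachable.refl _, hvw⟩
    · have ih' := ih hvw
      rw [sup_adj, edge_adj] at hadj
      rcases hadj with h' | ⟨h', -⟩
      · rcases ih' with ⟨h1, h2⟩ | ⟨h1, h2⟩
        · left; exact ⟨h'.reachable.trans h1, h2⟩
        · right; exact ⟨h'.reachable.trans h1, h2⟩
      · rcases h' with ⟨rfl, rfl⟩ | ⟨rfl, rfl⟩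
        · -- u = a, v = b
          rcases ih' with ⟨h1, h2⟩ | ⟨h1, h2⟩
          · left; exact ⟨Reachable.refl _, h2⟩
          · exact absurd h2 hx
        · rcases ih' with ⟨h1, h2⟩ | ⟨h1, h2⟩
          · exact absurd h2 hx
          · right; exact ⟨Reachable.refl _, h2⟩

/-- In a two component forest, among three vertices two are connected. -/
lemma for2_pigeon [Nonempty V] {F : Finset (Sym2 V)} (hF : ∀ e ∈ F, ¬ e.IsDiag)
    (h1 : (gr F).IsAcyclic) (h2 : F.card + 2 = Fintype.card V) {a b : V}
    (hab : ¬ (gr F).Reachable a b) (c : V) :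
    (gr F).Reachable a c ∨ (gr F).Reachable b c := by
  have hne : a ≠ b := by rintro rfl; exact hab (Reachable.refl _)
  have he : s(a, b) ∉ F := by
    intro h
    apply hab
    exact Adj.reachable (by simp [gr, fromEdgeSet_adj, h, hne])
  have ht := (isTree_insert_iff hF hne he).mpr ⟨⟨h1, h2⟩, hab⟩
  by_contra hcon
  push Not at hcon
  have hr : (gr F ⊔ edge a b).Reachable a c := by
    rw [← gr_insert]
    exact ht.connected.preconnected a c
  rcases reachable_sup_edge hr hcon.1 with ⟨-, h⟩ | ⟨h, -⟩
  · exact hcon.2 h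
  · exact hab h

/-- deleting an edge of a tree disconnects its ends -/
lemma not_reachable_erase [Nonempty V] {T : Finset (Sym2 V)} (hT : ∀ e ∈ T, ¬ e.IsDiag)
    (ht : (gr T).IsTree) {x y : V} (he : s(x, y) ∈ T) :
    (gr (T.erase s(x, y))).IsAcyclic ∧ (T.erase s(x, y)).card + 2 = Fintype.card V ∧
      ¬ (gr (T.erase s(x, y))).Reachable x y := by
  have hxy : x ≠ y := by
    intro h; exact hT _ he (by simpa using h)
  have h1 : insert s(x, y) (T.erase s(x, y)) = T := Finset.insert_erase he
  have h2 := (isTree_insert_iff (F := T.erase s(x, y))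
    (fun e h => hT e (Finset.mem_of_mem_erase h)) hxy (Finset.notMem_erase _ _)).mp
    (by rw [h1]; exact ht)
  exact ⟨h2.1.1, h2.1.2, h2.2⟩

lemma gr_mono {A B : Finset (Sym2 V)} (h : A ⊆ B) : gr A ≤ gr B :=
  fromEdgeSet_mono (by exact_mod_cast h)

lemma adj_gr {A : Finset (Sym2 V)} {x y : V} (h : s(x, y) ∈ A) (hne : x ≠ y) :
    (gr A).Adj x y := by
  simp [gr, fromEdgeSet_adj, h, hne]

/-- in a tree, for `x ≠ u`, there is a neighbour of `x` towards `u` -/
lemma exists_towards [Nonempty V] {T : Finset (Sym2 V)} (hT : ∀ e ∈ T, ¬ e.IsDiag)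
    (ht : (gr T).IsTree) {x u : V} (hxu : x ≠ u) :
    ∃ y, s(x, y) ∈ T ∧ (gr (T.erase s(x, y))).Reachable y u := by
  obtain ⟨p, hp⟩ := (ht.connected.preconnected x u).exists_isPath
  cases p with
  | nil => exact absurd rfl hxu
  | @cons _ y _ hadj p =>
    rw [Walk.cons_isPath_iff] at hp
    have hmem : s(x, y) ∈ T := by
      have := hadj
      simp only [gr, fromEdgeSet_adj, mem_coe] at this
      exact this.1
    refine ⟨y, hmem, ?_⟩
    refine ⟨p.transfer _ ?_⟩
    intro e he
    rw [edgeSet_gr (fun e h => hT e (Finset.mem_of_mem_erase h))]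
    simp only [coe_erase, Set.mem_sdiff, mem_coe, Set.mem_singleton_iff]
    constructor
    · have := p.edges_subset_edgeSet he
      rw [edgeSet_gr hT] at this
      exact this
    · rintro rfl
      exact hp.2 (Walk.fst_mem_support_of_mem_edges p he)

/-- ... and it is unique -/
lemma unique_towards [Nonempty V] {T : Finset (Sym2 V)} (hT : ∀ e ∈ T, ¬ e.IsDiag)
    (ht : (gr T).IsTree) {x u y y' : V}
    (hy : s(x, y) ∈ T) (hyu : (gr (T.erase s(x, y))).Reachable y u)
    (hy' : s(x, y') ∈ T) (hyu' : (gr (T.erase s(x, y'))).Reachable y' u) : y = y' := by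
  by_contra hne
  have hxy : x ≠ y := by
    intro h; exact hT _ hy (by simpa using h)
  have hxy' : x ≠ y' := by
    intro h; exact hT _ hy' (by simpa using h)
  have n1 := (not_reachable_erase hT ht hy).2.2
  have n2 := (not_reachable_erase hT ht hy').2.2
  have hee : s(x, y) ≠ s(x, y') := by
    intro h
    rw [Sym2.eq_iff] at h
    rcases h with ⟨-, h⟩ | ⟨h1, h2⟩
    · exact hne h
    · exact hxy' h1
  -- u not reachable from x in T - xy
  have nxu : ¬ (gr (T.erase s(x, y))).Reachable x u := fun h => n1 (h.trans hyu.symm)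
  have hadj : (gr (T.erase s(x, y))).Adj x y' :=
    adj_gr (Finset.mem_erase.mpr ⟨hee.symm, hy'⟩) hxy'
  set G := gr ((T.erase s(x, y')).erase s(x, y)) with hG
  have hG1 : G ≤ gr (T.erase s(x, y)) := gr_mono (Finset.erase_subset_erase _ (Finset.erase_subset _ _))
  have hG2 : G ≤ gr (T.erase s(x, y')) := gr_mono (Finset.erase_subset _ _)
  have hsup : gr (T.erase s(x, y')) = G ⊔ edge x y := by
    rw [hG, ← gr_insert, Finset.insert_erase]
    exact Finset.mem_erase.mpr ⟨hee, hy⟩
  have hr : (G ⊔ edge x y).Reachable y' u := by rw [← hsup]; exact hyu'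
  by_cases hg : G.Reachable y' u
  · exact nxu (hadj.reachable.trans (hg.mono hG1))
  · rcases reachable_sup_edge hr hg with ⟨h1, -⟩ | ⟨-, h2⟩
    · exact n2 (h1.mono hG2).symm
    · exact nxu (h2.mono hG1)

open scoped Classical in
lemma card_towards [Nonempty V] {T : Finset (Sym2 V)} (hT : ∀ e ∈ T, ¬ e.IsDiag)
    (ht : (gr T).IsTree) (x u : V) :
    (univ.filter fun y => s(x, y) ∈ T ∧ (gr (T.erase s(x, y))).Reachable y u).card
      = if x = u then 0 else 1 := by
  split_ifs with h
  · subst h
    rw [Finset.card_eq_zero, Finset.filter_eq_empty_iff]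
    rintro y - ⟨h1, h2⟩
    exact (not_reachable_erase hT ht h1).2.2 h2.symm
  · obtain ⟨y, h1, h2⟩ := exists_towards hT ht h
    rw [Finset.card_eq_one]
    refine ⟨y, ?_⟩
    ext z
    simp only [mem_filter, mem_univ, true_and, mem_singleton]
    constructor
    · rintro ⟨h3, h4⟩
      exact unique_towards hT ht h3 h4 h1 h2
    · rintro rfl
      exact ⟨h1, h2⟩

open scoped Classical in
/-- number of two-component forests separating `a` from `b` -/
noncomputable def res (E : Finset (Sym2 V)) (a b : V) : ℕ :=
  ((for2 E).filter fun F => ¬ (gr F).Reachable a b).card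

open scoped Classical in
/-- number of forests with `x` separated from its neighbour `y`, `y` being on the side of `u` -/
lemma sum_towards [Nonempty V] {E : Finset (Sym2 V)} (hE : ∀ e ∈ E, ¬ e.IsDiag) (x u : V) :
    ∑ y ∈ univ.filter (fun y => s(x, y) ∈ E),
      ((for2 E).filter fun F => ¬ (gr F).Reachable x y ∧ (gr F).Reachable y u).card
      = if x = u then 0 else (trees E).card := by
  have step : ∀ y ∈ univ.filter (fun y => s(x, y) ∈ E),
      ((for2 E).filter fun F => ¬ (gr F).Reachable x y ∧ (gr F).Reachable y u).card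
      = ((trees E).filter fun T => s(x, y) ∈ T ∧ (gr (T.erase s(x, y))).Reachable y u).card := by
    intro y hy
    simp only [mem_filter, mem_univ, true_and] at hy
    have hxy : x ≠ y := by
      intro h; exact hE _ hy (by simpa using h)
    refine Finset.card_bij' (fun F _ => insert s(x, y) F) (fun T _ => T.erase s(x, y)) ?_ ?_ ?_ ?_
    · intro F hF
      simp only [for2, mem_filter, mem_powerset] at hF
      obtain ⟨⟨hFE, hFa⟩, hnr, hr⟩ := hF
      have he : s(x, y) ∉ F := fun h => hnr (adj_gr h hxy).reachable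
      simp only [trees, mem_filter, mem_powerset]
      refine ⟨⟨?_, ?_⟩, Finset.mem_insert_self _ _, ?_⟩
      · exact Finset.insert_subset hy hFE
      · exact (isTree_insert_iff (fun e h => hE e (hFE h)) hxy he).mpr ⟨hFa, hnr⟩
      · rw [Finset.erase_insert he]; exact hr
    · intro T hT
      simp only [trees, mem_filter, mem_powerset] at hT
      obtain ⟨⟨hTE, hTt⟩, he, hr⟩ := hT
      have := not_reachable_erase (fun e h => hE e (hTE h)) hTt he
      simp only [for2, mem_filter, mem_powerset]
      exact ⟨⟨(Finset.erase_subset _ _).trans hTE, this.1, this.2.1⟩, this.2.2, hr⟩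
    · intro F hF
      simp only [for2, mem_filter, mem_powerset] at hF
      have he : s(x, y) ∉ F := fun h => hF.2.1 (adj_gr h hxy).reachable
      exact Finset.erase_insert he
    · intro T hT
      simp only [trees, mem_filter, mem_powerset] at hT
      exact Finset.insert_erase hT.2.1
  rw [Finset.sum_congr rfl step]
  have : ∑ y ∈ univ.filter (fun y => s(x, y) ∈ E),
      ((trees E).filter fun T => s(x, y) ∈ T ∧ (gr (T.erase s(x, y))).Reachable y u).card
      = ∑ T ∈ trees E,
        (univ.filter fun y => s(x, y) ∈ T ∧ (gr (T.erase s(x, y))).Reachable y u).card := by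
    simp only [Finset.card_eq_sum_ones, Finset.sum_filter]
    rw [← Finset.sum_filter, Finset.sum_comm]
    refine Finset.sum_congr rfl fun T hT => ?_
    rw [Finset.sum_filter]
    refine Finset.sum_congr rfl fun y _ => ?_
    simp only [trees, mem_filter, mem_powerset] at hT
    by_cases h : s(x, y) ∈ T
    · simp [h, hT.1 h]
    · simp [h]
  rw [this]
  have h2 : ∀ T ∈ trees E,
      (univ.filter fun y => s(x, y) ∈ T ∧ (gr (T.erase s(x, y))).Reachable y u).card
      = if x = u then 0 else 1 := by
    intro T hT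
    simp only [trees, mem_filter, mem_powerset] at hT
    exact card_towards (fun e h => hE e (hT.1 h)) hT.2 x u
  rw [Finset.sum_congr rfl h2]
  split_ifs <;> simp

open scoped Classical in
lemma res_diff [Nonempty V] {E : Finset (Sym2 V)} (hE : ∀ e ∈ E, ¬ e.IsDiag) (u v x y : V) :
    ((res E u x : ℝ) - res E v x) - ((res E u y : ℝ) - res E v y)
      = 2 * (((for2 E).filter fun F => ¬ (gr F).Reachable x y ∧ (gr F).Reachable y u).card : ℝ)
        - 2 * (((for2 E).filter fun F => ¬ (gr F).Reachable x y ∧ (gr F).Reachable y v).card : ℝ) := by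
  simp only [res, Finset.card_filter, Nat.cast_sum, Nat.cast_ite, Nat.cast_one, Nat.cast_zero]
  rw [Finset.mul_sum, Finset.mul_sum, ← Finset.sum_sub_distrib, ← Finset.sum_sub_distrib,
    ← Finset.sum_sub_distrib, ← Finset.sum_sub_distrib]
  refine Finset.sum_congr rfl fun F hF => ?_
  simp only [for2, mem_filter, mem_powerset] at hF
  obtain ⟨hFE, h1, h2⟩ := hF
  have hF' : ∀ e ∈ F, ¬ e.IsDiag := fun e h => hE e (hFE h)
  have key : ∀ w : V, ((if ¬ (gr F).Reachable w x then (1:ℝ) else 0)
      - (if ¬ (gr F).Reachable w y then (1:ℝ) else 0))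
      = if (gr F).Reachable x y then 0 else
        2 * (if (gr F).Reachable y w then (1:ℝ) else 0) - 1 := by
    intro w
    by_cases hxy : (gr F).Reachable x y
    · have : (gr F).Reachable w x ↔ (gr F).Reachable w y :=
        ⟨fun h => h.trans hxy, fun h => h.trans hxy.symm⟩
      simp [this, hxy]
    · rcases for2_pigeon hF' h1 h2 hxy w with h | h
      · have h' : ¬ (gr F).Reachable y w := fun h' => hxy (h.trans h'.symm)
        have h'' : ¬ (gr F).Reachable w y := fun h3 => h' h3.symm
        simp [hxy, h.symm, h', h'']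
      · have h' : ¬ (gr F).Reachable x w := fun h' => hxy (h'.trans h.symm)
        have h'' : ¬ (gr F).Reachable w x := fun h3 => h' h3.symm
        simp [hxy, h.symm, h, h'']
        norm_num
  have ku := key u
  have kv := key v
  by_cases hxy : (gr F).Reachable x y
  · simp only [hxy, if_true, not_true_eq_false, false_and, if_false] at ku kv ⊢
    linarith
  · simp only [hxy, if_false, not_false_eq_true, true_and] at ku kv ⊢
    linarith

open scoped Classical in
/-- The discrete harmonicity identity. -/
theorem laplacian_res [Nonempty V] {E : Finset (Sym2 V)} (hE : ∀ e ∈ E, ¬ e.IsDiag) (u v x : V) :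
    ∑ y ∈ univ.filter (fun y => s(x, y) ∈ E),
      (((res E u x : ℝ) - res E v x) - ((res E u y : ℝ) - res E v y))
      = 2 * (trees E).card * ((if x = v then 1 else 0) - (if x = u then 1 else 0)) := by
  simp_rw [res_diff hE]
  rw [Finset.sum_sub_distrib, ← Finset.mul_sum, ← Finset.mul_sum]
  have hu := sum_towards hE x u
  have hv := sum_towards hE x v
  rw [← Nat.cast_sum, ← Nat.cast_sum, hu, hv]
  split_ifs <;> push_cast <;> ring

open scoped Classical in
/-- deletion-contraction for the number of spanning trees -/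
theorem trees_insert [Nonempty V] {E : Finset (Sym2 V)} (hE : ∀ e ∈ E, ¬ e.IsDiag) {a b : V}
    (hab : a ≠ b) (he : s(a, b) ∉ E) :
    (trees (insert s(a, b) E)).card = (trees E).card + res E a b := by
  have h1 : (trees (insert s(a, b) E)) = (trees E) ∪
      ((for2 E).filter fun F => ¬ (gr F).Reachable a b).image (fun F => insert s(a, b) F) := by
    ext T
    simp only [trees, for2, mem_union, mem_filter, mem_powerset, mem_image]
    constructor
    · rintro ⟨hT, ht⟩
      by_cases hm : s(a, b) ∈ T
      · right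
        have hTd : ∀ e ∈ T, ¬ e.IsDiag := by
          intro e h
          rcases Finset.mem_insert.mp (hT h) with rfl | h'
          · simpa using hab
          · exact hE e h'
        have := not_reachable_erase hTd ht hm
        refine ⟨T.erase s(a, b), ⟨⟨?_, this.1, this.2.1⟩, this.2.2⟩, Finset.insert_erase hm⟩
        rw [← Finset.subset_insert_iff]
        exact hT
      · left
        refine ⟨?_, ht⟩
        intro e h
        rcases Finset.mem_insert.mp (hT h) with rfl | h'
        · exact absurd h hm
        · exact h'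
    · rintro (⟨hT, ht⟩ | ⟨F, ⟨⟨hF, hFa, hFc⟩, hnr⟩, rfl⟩)
      · exact ⟨hT.trans (Finset.subset_insert _ _), ht⟩
      · refine ⟨Finset.insert_subset_insert _ hF, ?_⟩
        exact (isTree_insert_iff (fun e h => hE e (hF h)) hab (fun h => he (hF h))).mpr
          ⟨⟨hFa, hFc⟩, hnr⟩
  rw [h1, Finset.card_union_of_disjoint, Finset.card_image_of_injOn, res]
  · intro F hF F' hF' heq
    simp only [for2, coe_filter, mem_filter, mem_powerset, Set.mem_ofPred_eq] at hF hF'
    have n1 : s(a, b) ∉ F := fun h => he (hF.1.1 h)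
    have n2 : s(a, b) ∉ F' := fun h => he (hF'.1.1 h)
    have := congrArg (fun S => S.erase s(a, b)) heq
    simpa [Finset.erase_insert n1, Finset.erase_insert n2] using this
  · rw [Finset.disjoint_left]
    intro T hT hT'
    simp only [trees, mem_filter, mem_powerset] at hT
    simp only [mem_image] at hT'
    obtain ⟨F, -, rfl⟩ := hT'
    exact he (hT.1 (Finset.mem_insert_self _ _))

open scoped Classical in
lemma res_self (E : Finset (Sym2 V)) (a : V) : res E a a = 0 := by
  simp [res]

open scoped Classical in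
lemma res_comm (E : Finset (Sym2 V)) (a b : V) : res E a b = res E b a := by
  simp only [res]
  congr 1
  ext F
  simp only [mem_filter, reachable_comm]

open scoped Classical in
lemma res_sub_le (E : Finset (Sym2 V)) (u v x : V) : res E u x ≤ res E v x + res E u v := by
  have h : ((for2 E).filter fun F => ¬ (gr F).Reachable u x) ⊆
      ((for2 E).filter fun F => ¬ (gr F).Reachable v x) ∪
      ((for2 E).filter fun F => ¬ (gr F).Reachable u v) := by
    intro F hF
    simp only [mem_union, mem_filter] at hF ⊢
    by_cases h : (gr F).Reachable v x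
    · right
      exact ⟨hF.1, fun h' => hF.2 (h'.trans h)⟩
    · left
      exact ⟨hF.1, h⟩
  calc res E u x ≤ _ := Finset.card_le_card h
    _ ≤ _ := Finset.card_union_le _ _

open scoped Classical in
/-- A connected graph has a spanning tree. -/
lemma trees_pos {E : Finset (Sym2 V)} (h : (gr E).Connected) :
    0 < (trees E).card := by
  obtain ⟨T, hT, ht⟩ := h.exists_isTree_le
  rw [Finset.card_pos]
  refine ⟨E.filter fun e => e ∈ T.edgeSet, ?_⟩
  simp only [trees, mem_filter, mem_powerset]
  refine ⟨Finset.filter_subset _ _, ?_⟩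
  have : gr (E.filter fun e => e ∈ T.edgeSet) = T := by
    ext x y
    simp only [gr, fromEdgeSet_adj, coe_filter, Set.mem_ofPred_eq, mem_edgeSet]
    constructor
    · rintro ⟨⟨-, h⟩, -⟩; exact h
    · intro h
      have h' := hT h
      simp only [gr, fromEdgeSet_adj, mem_coe] at h'
      exact ⟨⟨h'.1, h⟩, h'.2⟩
  rw [this]; exact ht

end Pool.Agent.W_MP_d15038_co
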