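import Pool.Agent.W_MP_d15038_co.Final

set_option autoImplicit false
set_option linter.unusedSectionVars false

namespace Pool.Agent.W_MP_d15038_co

open Finset SimpleGraph
open scoped Classical

variable {V : Type*} [Fintype V] [DecidableEq V]

lemma IsCo.eq {E : Finset (Sym2 V)} {H : SimpleGraph V} (h : IsCo E H) :
    E = Hᶜ.edgeFinset := by
  ext e
  induction e using Sym2.ind with
  | _ a b => rw [h a b, mem_edgeFinset, mem_edgeSet, compl_adj]

lemma IsCo.total {E : Finset (Sym2 V)} {H : SimpleGraph V} (h : IsCo E H) :
    E.card + H.edgeFinset.card = (Fintype.card V).choose 2 := by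
  rw [← card_edgeFinset_top_eq_card_choose_two, ← Finset.card_union_of_disjoint]
  · congr 1
    ext e
    induction e using Sym2.ind with
    | _ a b =>
      rw [mem_union, h a b, mem_edgeFinset, mem_edgeSet, mem_edgeFinset, mem_edgeSet, top_adj]
      constructor
      · rintro (h | h)
        · exact h.1
        · exact h.ne
      · intro hab
        by_cases h' : H.Adj a b
        · exact Or.inr h'
        · exact Or.inl ⟨hab, h'⟩
  · rw [Finset.disjoint_left]
    intro e
    induction e using Sym2.ind with
    | _ a b =>
      rw [h a b, mem_edgeFinset, mem_edgeSet]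
      exact fun h1 h2 => h1.2 h2

lemma IsCo.nodiag {E : Finset (Sym2 V)} {H : SimpleGraph V} (h : IsCo E H) :
    ∀ e ∈ E, ¬ e.IsDiag := by
  intro e
  induction e using Sym2.ind with
  | _ a b =>
    intro he
    simpa using ((h a b).mp he).1

lemma other_nbr {H : SimpleGraph V} (x y : V) (hxy : H.Adj x y)
    (hx : (H.neighborFinset x).card = 2) : ∃ a, y ≠ a ∧ H.neighborFinset x = {y, a} := by
  have hy : y ∈ H.neighborFinset x := by rwa [mem_neighborFinset]
  have h1 : ((H.neighborFinset x).erase y).card = 1 := by
    rw [Finset.card_erase_of_mem hy, hx]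
  obtain ⟨a, ha⟩ := Finset.card_eq_one.mp h1
  refine ⟨a, ?_, ?_⟩
  · have : a ∈ (H.neighborFinset x).erase y := by rw [ha]; simp
    exact (Finset.ne_of_mem_erase this).symm
  · rw [← Finset.insert_erase hy, ha]

/-- structural conclusion from optimality near `p = 1` -/
theorem struct {E : Finset (Sym2 V)} {H : SimpleGraph V} (hco : IsCo E H) (N : ℕ)
    (h4 : 4 ≤ N) (hN : N + 4 ≤ Fintype.card V)
    (hcH : 2 * H.edgeFinset.card = Fintype.card V + N)
    (hopt : ∀ E' : Finset (Sym2 V), (∀ e ∈ E', ¬ e.IsDiag) → E'.card = E.card →
      ∀ p ∈ Set.Icc (0:ℝ) 1, relE E' p ≤ relE E p) :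
    (∀ x, (H.neighborFinset x).card = 1 ∨ (H.neighborFinset x).card = 2) ∧
      (univ.filter fun x => (H.neighborFinset x).card = 2).card = N ∧
      (∀ x y, H.Adj x y → (H.neighborFinset x).card = 2 → (H.neighborFinset y).card = 2) := by
  set n := Fintype.card V with hn
  have hn8 : 8 ≤ n := by omega
  obtain ⟨c, hc⟩ : ∃ c, n = N + 2 * c := ⟨n - H.edgeFinset.card, by omega⟩
  obtain ⟨H1, h12, hN1, hcl1⟩ := exists_ref (V := V) N c (by omega) hc
  have hco1 : IsCo H1ᶜ.edgeFinset H1 := by
    intro x y
    rw [mem_edgeFinset, mem_edgeSet, compl_adj]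
  set E1 := H1ᶜ.edgeFinset with hE1
  have hdeg1 : ∀ x, (H1.neighborFinset x).card ≤ 2 := by
    intro x; rcases h12 x with h | h <;> omega
  have hsum1 : 2 * H1.edgeFinset.card = n + N := by
    rw [← sum_degrees_eq_twice_card_edges]
    simp_rw [← card_neighborFinset_eq_degree]
    rw [← Finset.sum_filter_add_sum_filter_not univ (fun x => (H1.neighborFinset x).card = 2)]
    have s1 : ∑ x ∈ univ.filter (fun x => (H1.neighborFinset x).card = 2),
        (H1.neighborFinset x).card = N * 2 := by
      rw [← hN1, ← smul_eq_mul, ← Finset.sum_const]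
      refine Finset.sum_congr rfl fun x hx => ?_
      simp only [mem_filter, mem_univ, true_and] at hx
      exact hx
    have hc' : (univ.filter fun x => ¬ (H1.neighborFinset x).card = 2).card = n - N := by
      have := Finset.card_filter_add_card_filter_not (s := (univ : Finset V))
        (fun x => (H1.neighborFinset x).card = 2)
      rw [Finset.card_univ, hN1] at this
      omega
    have s2 : ∑ x ∈ univ.filter (fun x => ¬ (H1.neighborFinset x).card = 2),
        (H1.neighborFinset x).card = (n - N) * 1 := by
      rw [← hc', ← smul_eq_mul, ← Finset.sum_const]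
      refine Finset.sum_congr rfl fun x hx => ?_
      simp only [mem_filter, mem_univ, true_and] at hx
      rcases h12 x with h | h
      · exact h
      · exact absurd h hx
    rw [s1, s2]
    omega
  have hcard : E.card = E1.card := by
    have t1 := hco.total
    have t2 := hco1.total
    omega
  have hd1 : H1.edgeFinset.card + 2 ≤ Fintype.card V := by omega
  have hlex := fun k h0 => disc_lexi hcard (hopt E1 hco1.nodiag hcard.symm) k h0
  have hUB := fun j hj => disc_upper hco1 (by omega) hd1 hdeg1 j hj
  -- Step 1
  have z1 : ∀ j, j + 3 < n → (disc E1 j).card = 0 := by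
    intro j hj
    have h := hUB j (by omega)
    rw [if_neg (by omega)] at h
    have : ∑ x, (starSets E1 j x).card = 0 := by
      apply Finset.sum_eq_zero
      intro x _
      rw [starSets_card hco1, if_neg]
      have := hdeg1 x
      omega
    omega
  have z : ∀ j, j + 3 < n → (disc E j).card = 0 := by
    intro j
    induction j using Nat.strong_induction_on with
    | _ j ih =>
      intro hj
      have := hlex j (fun i hi => by rw [ih i hi (by omega), z1 i (by omega)])
      rw [z1 j hj] at this
      omega
  -- Step 2
  have hdeg : ∀ x, (H.neighborFinset x).card ≤ 2 := by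
    intro x
    by_contra hcon
    push Not at hcon
    have h1 := hco.card_bd_single x
    have h2 := disc_of_bd (E := E) (by omega) x
    have h3 := z (bd E {x}).card (by omega)
    omega
  -- Step 3
  have hle : (univ.filter fun x => (H.neighborFinset x).card = 2).card ≤ N := by
    have h1 := hlex (n - 3) (fun i hi => by rw [z i (by omega), z1 i (by omega)])
    have h2 := hUB (n - 3) (by omega)
    rw [if_neg (by omega), sum_star_eq hco1 (n - 3) N h12 hN1, if_pos (by omega),
      if_neg (by omega)] at h2
    have e1 : n - 3 - (n - 1 - 2) = 0 := by omega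
    rw [e1, Nat.choose_zero_right] at h2
    have h3 := disc_lower hco (by omega) hdeg (n - 3) (by omega) (fun _ => Or.inl hn8)
    rw [if_neg (by omega)] at h3
    have h4 : (univ.filter fun x => (H.neighborFinset x).card = 2).card
        ≤ ∑ x, (starSets E (n - 3) x).card := by
      rw [Finset.card_filter]
      refine Finset.sum_le_sum fun x _ => ?_
      split_ifs with h5
      · rw [starSets_card hco, if_pos (by omega), h5]
        have e2 : n - 3 - (Fintype.card V - 1 - 2) = 0 := by omega
        rw [e2, Nat.choose_zero_right]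
      · exact Nat.zero_le _
    omega
  have hsum : ∑ x, (H.neighborFinset x).card = n + N := by
    rw [← hcH, ← sum_degrees_eq_twice_card_edges]
    simp_rw [card_neighborFinset_eq_degree]
  have hpt : ∀ x ∈ (univ : Finset V), (H.neighborFinset x).card
      ≤ 1 + (if (H.neighborFinset x).card = 2 then 1 else 0) := by
    intro x _
    have := hdeg x
    split_ifs <;> omega
  have hsum2 : ∑ x, (1 + (if (H.neighborFinset x).card = 2 then 1 else 0))
      = n + (univ.filter fun x => (H.neighborFinset x).card = 2).card := by
    rw [Finset.sum_add_distrib, Finset.card_filter]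
    simp [hn]
  have hN2 : (univ.filter fun x => (H.neighborFinset x).card = 2).card = N := by
    have := Finset.sum_le_sum hpt
    omega
  have heq : ∀ x ∈ (univ : Finset V), (H.neighborFinset x).card
      = 1 + (if (H.neighborFinset x).card = 2 then 1 else 0) := by
    rw [← Finset.sum_eq_sum_iff_of_le hpt]
    omega
  have hH12 : ∀ x, (H.neighborFinset x).card = 1 ∨ (H.neighborFinset x).card = 2 := by
    intro x
    have := heq x (Finset.mem_univ _)
    by_cases h : (H.neighborFinset x).card = 2
    · exact Or.inr h
    · rw [if_neg h] at this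
      exact Or.inl this
  -- Step 4
  have hstar : ∀ j, ∑ x, (starSets E j x).card = ∑ x, (starSets E1 j x).card := by
    intro j
    rw [sum_star_eq hco j N hH12 hN2, sum_star_eq hco1 j N h12 hN1, hcard]
  have heqd : ∀ j, j + 8 < 2 * n → (disc E j).card = (disc E1 j).card := by
    intro j
    induction j using Nat.strong_induction_on with
    | _ j ih =>
      intro hj
      have h1 := hlex j (fun i hi => ih i hi (by omega))
      have h2 := hUB j (by omega)
      have h3 := disc_lower hco (by omega) hdeg j (by omega) (fun _ => Or.inl hn8)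
      rw [if_neg (by omega)] at h2 h3
      have := hstar j
      omega
  -- Step 5
  have hQ : (Qset H).card ≤ (Qset H1).card := by
    have h1 := hlex (2 * n - 8) (fun i hi => heqd i (by omega))
    have h2 := hUB (2 * n - 8) (by omega)
    have h3 := disc_lower hco (by omega) hdeg (2 * n - 8) (by omega) (fun _ => Or.inl hn8)
    rw [if_pos (by omega)] at h2 h3
    have := hstar (2 * n - 8)
    omega
  -- Step 6
  have c1 := Qset_count hdeg1 N hN1
  have c0 := Qset_count hdeg N hN2
  have s1 : ∑ x ∈ univ.filter (fun x => (H1.neighborFinset x).card = 2),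
      ((H1.neighborFinset x).filter fun y => (H1.neighborFinset y).card = 2).card = N * 2 := by
    rw [← hN1, ← smul_eq_mul, ← Finset.sum_const]
    refine Finset.sum_congr rfl fun x hx => ?_
    simp only [mem_filter, mem_univ, true_and] at hx
    rw [Finset.filter_true_of_mem, hx]
    intro y hy
    rw [mem_neighborFinset] at hy
    exact hcl1 x y hy hx
  have hpt2 : ∀ x ∈ univ.filter (fun x => (H.neighborFinset x).card = 2),
      ((H.neighborFinset x).filter fun y => (H.neighborFinset y).card = 2).card ≤ 2 := by
    intro x hx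
    simp only [mem_filter, mem_univ, true_and] at hx
    rw [← hx]
    exact Finset.card_filter_le _ _
  have s0 : ∑ x ∈ univ.filter (fun x => (H.neighborFinset x).card = 2), 2 = N * 2 := by
    rw [Finset.sum_const, hN2, smul_eq_mul]
  have heq2 := (Finset.sum_eq_sum_iff_of_le hpt2).mp (by
    have := Finset.sum_le_sum hpt2
    omega)
  refine ⟨hH12, hN2, ?_⟩
  intro x y hxy hx
  have h1 := heq2 x (by simp only [mem_filter, mem_univ, true_and]; exact hx)
  have h2 : (H.neighborFinset x).filter (fun y => (H.neighborFinset y).card = 2)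
      = H.neighborFinset x := by
    apply Finset.eq_of_subset_of_card_le (Finset.filter_subset _ _)
    rw [h1, hx]
  have h3 : y ∈ H.neighborFinset x := by rwa [mem_neighborFinset]
  rw [← h2, mem_filter] at h3
  exact h3.2

theorem no_umr {E : Finset (Sym2 V)} {H : SimpleGraph V} (hco : IsCo E H) (N : ℕ)
    (h4 : 4 ≤ N) (hN : N + 4 ≤ Fintype.card V) (h3 : ¬ 3 ∣ N)
    (hcH : 2 * H.edgeFinset.card = Fintype.card V + N)
    (hopt : ∀ E' : Finset (Sym2 V), (∀ e ∈ E', ¬ e.IsDiag) → E'.card = E.card →
      ∀ p ∈ Set.Icc (0:ℝ) 1, relE E' p ≤ relE E p) : False := by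
  obtain ⟨h12, hN2, hcl⟩ := struct hco N h4 hN hcH hopt
  have hdeg : ∀ x, (H.neighborFinset x).card ≤ 2 := by
    intro x; rcases h12 x with h | h <;> omega
  -- a non-triangle
  have hex : ∃ u z a b, H.neighborFinset u = {z, a} ∧ z ≠ a ∧ H.neighborFinset z = {u, b} ∧
      u ≠ b ∧ a ≠ b := by
    by_contra hcon
    push Not at hcon
    exact h3 (three_dvd N hN2 hcon hcl)
  obtain ⟨u, z, x2, x', hu, hzx2, hz, hux', hx2x'⟩ := hex
  have cu : (H.neighborFinset u).card = 2 := by rw [hu]; exact Finset.card_pair hzx2
  have cz : (H.neighborFinset z).card = 2 := by rw [hz]; exact Finset.card_pair hux'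
  have hadj : ∀ x y, H.Adj x y ↔ y ∈ H.neighborFinset x := fun x y => by
    rw [mem_neighborFinset]
  have Auz : H.Adj u z := by rw [hadj, hu]; simp
  have Aux2 : H.Adj u x2 := by rw [hadj, hu]; simp
  have Azx' : H.Adj z x' := by rw [hadj, hz]; simp
  have cx2 := hcl u x2 Aux2 cu
  have cx' := hcl z x' Azx' cz
  obtain ⟨x3, hux3, hx2⟩ := other_nbr x2 u Aux2.symm cx2
  obtain ⟨x'', hzx'', hx'⟩ := other_nbr x' z Azx'.symm cx'
  have Ax2x3 : H.Adj x2 x3 := by rw [hadj, hx2]; simp
  have cx3 := hcl x2 x3 Ax2x3 cx2
  obtain ⟨x4, hx24, hx3⟩ := other_nbr x3 x2 Ax2x3.symm cx3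
  -- a leaf
  have hv : ∃ v, (H.neighborFinset v).card = 1 := by
    by_contra hcon
    push Not at hcon
    have : (univ.filter fun x => (H.neighborFinset x).card = 2) = univ := by
      apply Finset.filter_true_of_mem
      intro x _
      rcases h12 x with h | h
      · exact absurd h (hcon x)
      · exact h
    rw [this, Finset.card_univ] at hN2
    omega
  obtain ⟨v, cv⟩ := hv
  obtain ⟨y2, hv⟩ := Finset.card_eq_one.mp cv
  have Avy : H.Adj v y2 := by rw [hadj, hv]; simp
  have cy : (H.neighborFinset y2).card = 1 := by
    rcases h12 y2 with h | h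
    · exact h
    · have := hcl y2 v Avy.symm h
      omega
  have hy : H.neighborFinset y2 = {v} := by
    obtain ⟨w, hw⟩ := Finset.card_eq_one.mp cy
    have : v ∈ H.neighborFinset y2 := by rw [← hadj]; exact Avy.symm
    rw [hw, mem_singleton] at this
    rw [hw, this]
  have hzx3 : z ≠ x3 := by
    rintro rfl
    have h := Ax2x3.symm
    rw [hadj, hz] at h
    simp only [mem_insert, mem_singleton] at h
    rcases h with h | h
    · exact Aux2.ne h.symm
    · exact hx2x' h
  have h9 : x3 ≠ x' → 9 ≤ Fintype.card V := by
    intro h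
    have hsub : ({u, z, x2, x', x3} : Finset V) ⊆
        univ.filter fun x => (H.neighborFinset x).card = 2 := by
      intro w hw
      simp only [mem_insert, mem_singleton] at hw
      simp only [mem_filter, mem_univ, true_and]
      rcases hw with rfl | rfl | rfl | rfl | rfl <;> assumption
    have hc5 : ({u, z, x2, x', x3} : Finset V).card = 5 := by
      rw [Finset.card_insert_of_notMem, Finset.card_insert_of_notMem,
        Finset.card_insert_of_notMem, Finset.card_pair h.symm]
      · simp only [mem_insert, mem_singleton]; push Not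
        exact ⟨hx2x', Ax2x3.ne⟩
      · simp only [mem_insert, mem_singleton]; push Not
        exact ⟨hzx2, Azx'.ne, hzx3⟩
      · simp only [mem_insert, mem_singleton]; push Not
        exact ⟨Auz.ne, Aux2.ne, hux', hux3⟩
    have := Finset.card_le_card hsub
    omega
  have key := tree_ineq H E hco (by omega) hdeg u z x2 x' v y2 x3 x4 x'' hu hzx2 hz hux' hx2x'
    hx2 hux3 hx' hzx'' (fun _ => ⟨hx3, hx24⟩) hv hy h9
  -- contradiction
  have hvz : s(v, z) ∈ E := by
    rw [hco, hadj, hv]
    simp only [mem_singleton]
    constructor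
    · rintro rfl; omega
    · rintro rfl; omega
  have huz : s(u, z) ∉ E.erase s(v, z) := by
    intro h
    have := Finset.mem_of_mem_erase h
    rw [hco] at this
    exact this.2 Auz
  have hEcard : 0 < E.card := Finset.card_pos.mpr ⟨_, hvz⟩
  have hc' : (insert s(u, z) (E.erase s(v, z))).card = E.card := by
    rw [Finset.card_insert_of_notMem huz, Finset.card_erase_of_mem hvz]
    omega
  have hnd : ∀ e ∈ insert s(u, z) (E.erase s(v, z)), ¬ e.IsDiag := by
    intro e he
    rcases Finset.mem_insert.mp he with rfl | h
    · simpa using Auz.ne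
    · exact hco.nodiag e (Finset.mem_of_mem_erase h)
  have := trees_le hco.nodiag hnd hc'.symm (hopt _ hnd hc')
  omega

end Pool.Agent.W_MP_d15038_co
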