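import Pool.Agent.W_MP_d15038_co.Bounds

set_option autoImplicit false
set_option linter.unusedSectionVars false

namespace Pool.Agent.W_MP_d15038_co

open Finset SimpleGraph
open scoped Classical

variable {V : Type*} [Fintype V] [DecidableEq V]

/-- graph of a permutation -/
def permGraph (σ : Equiv.Perm V) : SimpleGraph V where
  Adj x y := x ≠ y ∧ (σ x = y ∨ σ y = x)
  symm := ⟨fun _ _ h => ⟨h.1.symm, h.2.symm⟩⟩
  loopless := ⟨fun _ h => h.1 rfl⟩

lemma permGraph_nbr (σ : Equiv.Perm V) (hσ : ∀ x, σ x ≠ x) (x : V) :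
    (permGraph σ).neighborFinset x = {σ x, σ.symm x} := by
  ext y
  rw [mem_neighborFinset, mem_insert, mem_singleton]
  change (x ≠ y ∧ (σ x = y ∨ σ y = x)) ↔ _
  constructor
  · rintro ⟨-, h | h⟩
    · exact Or.inl h.symm
    · right; rw [← h]; simp
  · rintro (rfl | rfl)
    · exact ⟨(hσ x).symm, Or.inl rfl⟩
    · refine ⟨?_, Or.inr (by simp)⟩
      intro h
      exact hσ (σ.symm x) (by simpa using h)

lemma permGraph_card (σ : Equiv.Perm V) (hσ : ∀ x, σ x ≠ x) (x : V) :
    ((permGraph σ).neighborFinset x).card = if σ (σ x) = x then 1 else 2 := by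
  rw [permGraph_nbr σ hσ]
  split_ifs with h
  · have : σ.symm x = σ x := by rw [Equiv.symm_apply_eq]; exact h.symm
    rw [this]; simp
  · apply Finset.card_pair
    intro h'
    apply h
    rw [h']; simp

/-- the permutation on the model type -/
def modelPerm (N c : ℕ) : Equiv.Perm (Fin N ⊕ (Fin c × Bool)) :=
  Equiv.sumCongr (finRotate N) (Equiv.prodCongr (Equiv.refl _) Equiv.boolNot)

lemma modelPerm_ne (N c : ℕ) (hN : 3 ≤ N) (x) : modelPerm N c x ≠ x := by
  obtain ⟨m, rfl⟩ : ∃ m, N = m + 3 := ⟨N - 3, by omega⟩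
  rcases x with i | ⟨i, b⟩
  · simp only [modelPerm, Equiv.sumCongr_apply, Sum.map_inl, ne_eq, Sum.inl.injEq]
    rw [finRotate_apply]
    intro h
    have := congrArg Fin.val h
    rw [Fin.val_add] at this
    have hi := i.isLt
    have h1 : ((1 : Fin (m + 2 + 1)) : ℕ) = 1 := by
      rw [Fin.val_one']; exact Nat.mod_eq_of_lt (by omega)
    rw [h1] at this
    rcases Nat.lt_or_ge (i.val + 1) (m + 2 + 1) with h2 | h2
    · rw [Nat.mod_eq_of_lt h2] at this; omega
    · have h3 : i.val + 1 = m + 2 + 1 := by omega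
      rw [h3, Nat.mod_self] at this
      omega
  · simp only [modelPerm, Equiv.sumCongr_apply, Sum.map_inr, ne_eq, Sum.inr.injEq]
    intro h
    have := congrArg Prod.snd h
    cases b <;> simp at this

lemma modelPerm_sq (N c : ℕ) (hN : 3 ≤ N) (x) :
    modelPerm N c (modelPerm N c x) = x ↔ ∃ y, x = Sum.inr y := by
  obtain ⟨m, rfl⟩ : ∃ m, N = m + 3 := ⟨N - 3, by omega⟩
  rcases x with i | ⟨i, b⟩
  · simp only [modelPerm, Equiv.sumCongr_apply, Sum.map_inl, Sum.inl.injEq]
    constructor
    · intro h
      exfalso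
      rw [finRotate_apply, finRotate_apply] at h
      have := congrArg Fin.val h
      rw [Fin.val_add, Fin.val_add] at this
      have hi := i.isLt
      have h1 : ((1 : Fin (m + 2 + 1)) : ℕ) = 1 := by
        rw [Fin.val_one']; exact Nat.mod_eq_of_lt (by omega)
      rw [h1] at this
      have h3 : (↑i + 1) % (m + 2 + 1) = if (i:ℕ) = m + 2 then 0 else (i:ℕ) + 1 := by
        split_ifs with h4
        · rw [h4]; exact Nat.mod_self _
        · exact Nat.mod_eq_of_lt (by omega)
      rw [h3] at this
      split_ifs at this with h4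
      · rw [Nat.mod_eq_of_lt (by omega)] at this; omega
      · rcases Nat.lt_or_ge (i.val + 1 + 1) (m + 2 + 1) with h2 | h2
        · rw [Nat.mod_eq_of_lt h2] at this; omega
        · have h5 : i.val + 1 + 1 = m + 2 + 1 := by omega
          rw [h5, Nat.mod_self] at this
          omega
    · rintro ⟨y, hy⟩; exact absurd hy (by simp)
  · simp only [modelPerm, Equiv.sumCongr_apply, Sum.map_inr, Sum.inr.injEq, exists_eq', iff_true]
    cases b <;> simp

/-- The reference graph: a cycle of length `N` and a perfect matching on the rest. -/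
lemma exists_ref (N c : ℕ) (hN : 3 ≤ N) (hV : Fintype.card V = N + 2 * c) :
    ∃ H : SimpleGraph V,
      (∀ x, (H.neighborFinset x).card = 1 ∨ (H.neighborFinset x).card = 2) ∧
      (univ.filter fun x => (H.neighborFinset x).card = 2).card = N ∧
      (∀ x y, H.Adj x y → (H.neighborFinset x).card = 2 → (H.neighborFinset y).card = 2) := by
  have hcard : Fintype.card (Fin N ⊕ (Fin c × Bool)) = Fintype.card V := by
    simp [hV, mul_comm]
  let e : (Fin N ⊕ (Fin c × Bool)) ≃ V := Fintype.equivOfCardEq hcard
  let σ : Equiv.Perm V := (e.symm.trans (modelPerm N c)).trans e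
  have hσ : ∀ x, σ x ≠ x := by
    intro x h
    apply modelPerm_ne N c hN (e.symm x)
    have : e (modelPerm N c (e.symm x)) = x := h
    exact (Equiv.eq_symm_apply e).mpr this
  have hσ2 : ∀ x, σ (σ x) = x ↔ ∃ y, e.symm x = Sum.inr y := by
    intro x
    rw [← modelPerm_sq N c hN (e.symm x)]
    have : σ (σ x) = e (modelPerm N c (modelPerm N c (e.symm x))) := by
      simp [σ]
    rw [this]
    exact (Equiv.eq_symm_apply e).symm
  refine ⟨permGraph σ, ?_, ?_, ?_⟩
  · intro x
    rw [permGraph_card σ hσ]
    split_ifs <;> simp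
  · have h1 : (univ.filter fun x => ((permGraph σ).neighborFinset x).card = 2)
        = (univ : Finset (Fin N)).image (fun i => e (Sum.inl i)) := by
      ext x
      simp only [mem_filter, mem_univ, true_and, mem_image, permGraph_card σ hσ]
      constructor
      · intro h
        have h2 : ¬ σ (σ x) = x := by
          intro h'; rw [if_pos h'] at h; omega
        rw [hσ2] at h2
        rcases hx : e.symm x with i | y
        · exact ⟨i, by rw [← hx]; simp⟩
        · exact absurd ⟨y, hx⟩ h2
      · rintro ⟨i, rfl⟩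
        rw [if_neg]
        rw [hσ2]
        simp
    rw [h1, Finset.card_image_of_injective]
    · simp
    · intro i j h
      simpa using h
  · intro x y hxy hx
    rw [permGraph_card σ hσ] at hx ⊢
    rw [if_neg]
    intro h
    apply (show ¬ σ (σ x) = x by intro h'; rw [if_pos h'] at hx; omega)
    rcases hxy.2 with h2 | h2
    · rw [← h2] at h
      exact σ.injective h
    · rw [← h2]
      rw [h]

end Pool.Agent.W_MP_d15038_co
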