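import Pool.Agent.W_MP_d15038_co.TreeIneq

set_option autoImplicit false
set_option linter.unusedSectionVars false

namespace Pool.Agent.W_MP_d15038_co

open Finset SimpleGraph

variable {V : Type*} [Fintype V] [DecidableEq V]

/-- The real inequality behind `tree_ineq2`. -/
lemma real_p6 (n τ ga gb gc gd ge gf : ℝ) (hn : 6 ≤ n) (hτ : 0 < τ)
    (Ha : n * ga - (ga - gb) = 0) (Hb : n * gb - ((gb - ga) + (gb - gc)) = 0)
    (Hc : n * gc - ((gc - gb) + (gc - gd)) = -(2 * τ))
    (Hd : n * gd - ((gd - gc) + (gd - ge)) = 0)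
    (He : n * ge - ((ge - gf) + (ge - gd)) = 2 * τ)
    (Hf : n * gf - (gf - ge) = 0) : 0 < gd - (gc + ge) / 2 := by
  obtain ⟨s, hs, rfl⟩ : ∃ s, 0 ≤ s ∧ n = s + 6 := ⟨n - 6, by linarith, by ring⟩
  have hgb : gb = -((s + 5) * ga) := by linarith
  have hge : ge = -((s + 5) * gf) := by linarith
  subst hgb hge
  have E1 : gc = (s ^ 2 + 9 * s + 19) * ga := by linear_combination Hb
  have E2 : (s ^ 3 + 13 * s ^ 2 + 54 * s + 71) * ga = -gd - 2 * τ := by
    rw [E1] at Hc
    linear_combination Hc
  have E3 : (s ^ 2 + 9 * s + 19) * gf = gd - 2 * τ := by linear_combination -He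
  have E5 : (s + 4) * gd + gc + -((s + 5) * gf) = 0 := by linear_combination Hd
  have key : (s ^ 6 + 26 * s ^ 5 + 276 * s ^ 4 + 1528 * s ^ 3 + 4643 * s ^ 2 + 7326 * s + 4680)
      * gd = 2 * τ * (s + 6) := by
    linear_combination ((s ^ 3 + 13 * s ^ 2 + 54 * s + 71) * (s ^ 2 + 9 * s + 19)) * (E5 - E1)
      - (s ^ 2 + 9 * s + 19) ^ 2 * E2 + (s + 5) * (s ^ 3 + 13 * s ^ 2 + 54 * s + 71) * E3
  have hgd : 0 < gd := by
    have h1 : 0 < (s ^ 6 + 26 * s ^ 5 + 276 * s ^ 4 + 1528 * s ^ 3 + 4643 * s ^ 2 + 7326 * s + 4680)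
      * gd := by rw [key]; positivity
    exact pos_of_mul_pos_right h1 (by positivity)
  have h2 : 0 ≤ s * gd := mul_nonneg hs hgd.le
  linarith

open scoped Classical in
/-- In the complement, replacing `P_4 ∪ K_2` by `2 P_3` increases the number of spanning trees. -/
theorem tree_ineq2 (H : SimpleGraph V) (E : Finset (Sym2 V))
    (hEH : ∀ x y, s(x, y) ∈ E ↔ x ≠ y ∧ ¬ H.Adj x y)
    (hn : 6 ≤ Fintype.card V)
    (hdeg : ∀ x, (H.neighborFinset x).card ≤ 2)
    (a b c d e f : V)
    (ha : H.neighborFinset a = {b}) (hb : H.neighborFinset b = {a, c})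
    (hc : H.neighborFinset c = {b, d}) (hd : H.neighborFinset d = {c})
    (he : H.neighborFinset e = {f}) (hf : H.neighborFinset f = {e})
    (hac : a ≠ c) (hbd : b ≠ d) (hae : a ≠ e) (hde : d ≠ e) :
    (trees E).card < (trees (insert s(c, d) (E.erase s(d, e)))).card := by
  have : Nonempty V := ⟨a⟩
  have hadj : ∀ x y, H.Adj x y ↔ y ∈ H.neighborFinset x := fun x y => by simp
  have ca : (H.neighborFinset a).card = 1 := by rw [ha]; exact Finset.card_singleton _
  have cb : (H.neighborFinset b).card = 2 := by rw [hb]; exact Finset.card_pair hac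
  have cc : (H.neighborFinset c).card = 2 := by rw [hc]; exact Finset.card_pair hbd
  have cd : (H.neighborFinset d).card = 1 := by rw [hd]; exact Finset.card_singleton _
  have ce : (H.neighborFinset e).card = 1 := by rw [he]; exact Finset.card_singleton _
  have cf : (H.neighborFinset f).card = 1 := by rw [hf]; exact Finset.card_singleton _
  have ne_of_card : ∀ a b : V, (H.neighborFinset a).card = 2 → (H.neighborFinset b).card = 1 →
      a ≠ b := by
    rintro a b h1 h2 rfl; omega
  have Aab : H.Adj a b := by rw [hadj, ha]; simp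
  have Abc : H.Adj b c := by rw [hadj, hb]; simp
  have Acd : H.Adj c d := by rw [hadj, hc]; simp
  have Aef : H.Adj e f := by rw [hadj, he]; simp
  have hbe := ne_of_card b e cb ce
  have hce := ne_of_card c e cc ce
  have hbf := ne_of_card b f cb cf
  have hcf := ne_of_card c f cc cf
  have had : a ≠ d := by
    rintro rfl
    rw [ha] at hd
    exact Abc.ne (Finset.singleton_injective hd)
  have haf : a ≠ f := by
    rintro rfl
    rw [ha] at hf
    exact hbe (Finset.singleton_injective hf)
  have hdf : d ≠ f := by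
    rintro rfl
    rw [hd] at hf
    exact hce (Finset.singleton_injective hf)
  set E0 := E.erase s(d, e) with hE0
  have hEd : ∀ e ∈ E, ¬ e.IsDiag := by
    intro e
    induction e using Sym2.ind with
    | _ a b =>
      intro h
      simpa using ((hEH a b).mp h).1
  have hE0d : ∀ e ∈ E0, ¬ e.IsDiag := fun e h => hEd e (Finset.mem_of_mem_erase h)
  have hdeE : s(d, e) ∈ E := by
    rw [hEH, hadj, hd]
    simp only [mem_singleton]
    exact ⟨hde, hce.symm⟩
  have hcdE : s(c, d) ∉ E0 := by
    intro h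
    have := Finset.mem_of_mem_erase h
    rw [hEH] at this
    exact this.2 Acd
  -- neighbourhoods of E0
  have N_gen : ∀ x, x ≠ d → x ≠ e → ∀ y, s(x, y) ∈ E0 ↔ y ≠ x ∧ y ∉ H.neighborFinset x := by
    intro x hxv hxz y
    rw [hE0, Finset.mem_erase, hEH, hadj, Ne, Sym2.eq_iff]
    constructor
    · rintro ⟨-, h1, h2⟩; exact ⟨h1.symm, h2⟩
    · rintro ⟨h1, h2⟩
      refine ⟨?_, h1.symm, h2⟩
      rintro (⟨h3, -⟩ | ⟨h3, -⟩)
      · exact hxv h3
      · exact hxz h3
  have N_d : ∀ y, s(d, y) ∈ E0 ↔ y ≠ d ∧ y ∉ ({c, e} : Finset V) := by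
    intro y
    rw [hE0, Finset.mem_erase, hEH, hadj, hd, Ne, Sym2.eq_iff]
    simp only [mem_insert, mem_singleton]
    constructor
    · rintro ⟨h1, h2, h3⟩
      refine ⟨h2.symm, ?_⟩
      rintro (h | h)
      · exact h3 h
      · exact h1 (Or.inl ⟨trivial, h⟩)
    · rintro ⟨h1, h2⟩
      push Not at h2
      refine ⟨?_, h1.symm, h2.1⟩
      rintro (⟨-, h⟩ | ⟨h, -⟩)
      · exact h2.2 h
      · exact hde h
  have N_e : ∀ y, s(e, y) ∈ E0 ↔ y ≠ e ∧ y ∉ ({f, d} : Finset V) := by
    intro y
    rw [hE0, Finset.mem_erase, hEH, hadj, he, Ne, Sym2.eq_iff]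
    simp only [mem_insert, mem_singleton]
    constructor
    · rintro ⟨h1, h2, h3⟩
      refine ⟨h2.symm, ?_⟩
      rintro (h | h)
      · exact h3 h
      · exact h1 (Or.inr ⟨trivial, h⟩)
    · rintro ⟨h1, h2⟩
      push Not at h2
      refine ⟨?_, h1.symm, h2.1⟩
      rintro (⟨h, -⟩ | ⟨-, h⟩)
      · exact hde h.symm
      · exact h2.2 h
  -- tree counts
  have hEins : insert s(d, e) E0 = E := Finset.insert_erase hdeE
  have t1 : (trees E).card = (trees E0).card + res E0 d e := by
    rw [← hEins]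
    exact trees_insert hE0d hde (Finset.notMem_erase _ _)
  have t2 : (trees (insert s(c, d) E0)).card = (trees E0).card + res E0 c d :=
    trees_insert hE0d Acd.ne hcdE
  rw [t1, t2]
  suffices hlt : (res E0 e d : ℝ) < res E0 c d by
    have : res E0 e d < res E0 c d := by exact_mod_cast hlt
    rw [res_comm E0 d e]
    omega
  -- connectivity
  have hconn : (gr E0).Connected := by
    refine conn_of_dense 2 ?_ (by omega)
    intro x
    by_cases hxv : x = d
    · have : (univ.filter fun y => y ≠ x ∧ s(x, y) ∉ E0) ⊆ {c, e} := by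
        intro y
        simp only [mem_filter, mem_univ, true_and]
        rintro ⟨h1, h2⟩
        by_contra h3
        rw [hxv] at h1 h2
        exact h2 ((N_d y).mpr ⟨h1, h3⟩)
      exact (Finset.card_le_card this).trans Finset.card_le_two
    by_cases hxz : x = e
    · have : (univ.filter fun y => y ≠ x ∧ s(x, y) ∉ E0) ⊆ {f, d} := by
        intro y
        simp only [mem_filter, mem_univ, true_and]
        rintro ⟨h1, h2⟩
        by_contra h3
        rw [hxz] at h1 h2
        exact h2 ((N_e y).mpr ⟨h1, h3⟩)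
      exact (Finset.card_le_card this).trans Finset.card_le_two
    · have : (univ.filter fun y => y ≠ x ∧ s(x, y) ∉ E0) ⊆ H.neighborFinset x := by
        intro y
        simp only [mem_filter, mem_univ, true_and]
        rintro ⟨h1, h2⟩
        by_contra h3
        exact h2 ((N_gen x hxv hxz y).mpr ⟨h1, h3⟩)
      exact (Finset.card_le_card this).trans (hdeg x)
  have htau : 0 < (trees E0).card := trees_pos hconn
  have htau' : (0 : ℝ) < (trees E0).card := by exact_mod_cast htau
  -- potentials
  set ρ : V → ℝ := fun y => (res E0 c y : ℝ) - res E0 e y with hρ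
  set t : ℝ := (∑ w, ρ w) / Fintype.card V with ht
  set g : V → ℝ := fun y => ρ y - t with hg
  have lap := fun (x : V) (N : Finset V) hN hx => lap_compl hE0d c e x N hN hx g (fun y => rfl)
  set n : ℝ := (Fintype.card V : ℝ) with hnn
  have hn6 : (6 : ℝ) ≤ n := by rw [hnn]; exact_mod_cast hn
  have gc : g c = -(res E0 c e : ℝ) - t := by
    simp only [hg, hρ, res_self]; rw [res_comm E0 e c]; push_cast; ring
  have ge : g e = (res E0 c e : ℝ) - t := by
    simp only [hg, hρ, res_self]; push_cast; ring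
  have Ha := lap a {b} (fun y => by rw [N_gen a had hae, ha])
    (by simp only [mem_singleton]; exact Aab.ne)
  have Hb := lap b {a, c} (fun y => by rw [N_gen b hbd hbe, hb])
    (by simp only [mem_insert, mem_singleton]; push Not; exact ⟨Aab.ne.symm, Abc.ne⟩)
  have Hc := lap c {b, d} (fun y => by rw [N_gen c Acd.ne hce, hc])
    (by simp only [mem_insert, mem_singleton]; push Not; exact ⟨Abc.ne.symm, Acd.ne⟩)
  have Hd := lap d {c, e} N_d
    (by simp only [mem_insert, mem_singleton]; push Not; exact ⟨Acd.ne.symm, hde⟩)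
  have He := lap e {f, d} N_e
    (by simp only [mem_insert, mem_singleton]; push Not; exact ⟨Aef.ne, hde.symm⟩)
  have Hf := lap f {e} (fun y => by rw [N_gen f hdf.symm Aef.ne.symm, hf])
    (by simp only [mem_singleton]; exact Aef.ne.symm)
  rw [Finset.sum_singleton, if_neg hae, if_neg hac] at Ha
  rw [Finset.sum_pair hac, if_neg hbe, if_neg Abc.ne] at Hb
  rw [Finset.sum_pair hbd, if_neg hce, if_pos rfl] at Hc
  rw [Finset.sum_pair hce, if_neg hde, if_neg Acd.ne.symm] at Hd
  rw [Finset.sum_pair hdf.symm, if_pos rfl, if_neg hce.symm] at He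
  rw [Finset.sum_singleton, if_neg Aef.ne.symm, if_neg hcf.symm] at Hf
  have key := real_p6 n (trees E0).card (g a) (g b) (g c) (g d) (g e) (g f) hn6 htau'
    (by linarith) (by linarith) (by linarith) (by linarith) (by linarith) (by linarith)
  have hd' : g d = (res E0 c d : ℝ) - res E0 e d - t := rfl
  linarith

end Pool.Agent.W_MP_d15038_co
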