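import Pool.Agent.W_MP_d15038_co.Main
import Pool.Agent.W_MP_d15038_co.TreeTwo

set_option autoImplicit false
set_option linter.unusedSectionVars false

namespace Pool.Agent.W_MP_d15038_co

open Finset SimpleGraph
open scoped Classical

variable {V : Type*} [Fintype V] [DecidableEq V]

/-- a perfect matching with one extra edge -/
def matchGraph (σ : V → V) (p q : V) : SimpleGraph V where
  Adj x y := x ≠ y ∧ (y = σ x ∨ x = σ y ∨ (x = p ∧ y = q) ∨ (x = q ∧ y = p))
  symm := ⟨fun x y h => ⟨h.1.symm, by
    rcases h.2 with h | h | h | h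
    · exact Or.inr (Or.inl h)
    · exact Or.inl h
    · exact Or.inr (Or.inr (Or.inr ⟨h.2, h.1⟩))
    · exact Or.inr (Or.inr (Or.inl ⟨h.2, h.1⟩))⟩⟩
  loopless := ⟨fun x h => h.1 rfl⟩

lemma matchGraph_nbr (σ : V → V) (hσ : ∀ x, σ (σ x) = x) (hσ' : ∀ x, σ x ≠ x) (p q : V)
    (hpq : p ≠ q) (x : V) :
    (matchGraph σ p q).neighborFinset x =
      if x = p then {σ x, q} else if x = q then {σ x, p} else {σ x} := by
  ext y
  rw [mem_neighborFinset]
  have h1 : x = σ y ↔ y = σ x := by
    constructor
    · rintro rfl; exact (hσ y).symm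
    · rintro rfl; exact (hσ x).symm
  simp only [matchGraph, h1]
  split_ifs with h2 h3
  · subst h2
    simp only [mem_insert, mem_singleton]
    constructor
    · rintro ⟨-, h | h | h | h⟩
      · exact Or.inl h
      · exact Or.inl h
      · exact Or.inr h.2
      · exact absurd h.1 hpq
    · rintro (h | h)
      · exact ⟨fun h' => hσ' x (by rw [← h, ← h']), Or.inl h⟩
      · exact ⟨by rw [h]; exact hpq, Or.inr (Or.inr (Or.inl ⟨trivial, h⟩))⟩
  · subst h3
    simp only [mem_insert, mem_singleton]
    constructor
    · rintro ⟨-, h | h | h | h⟩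
      · exact Or.inl h
      · exact Or.inl h
      · exact absurd h.1 h2
      · exact Or.inr h.2
    · rintro (h | h)
      · exact ⟨fun h' => hσ' x (by rw [← h, ← h']), Or.inl h⟩
      · exact ⟨by rw [h]; exact h2, Or.inr (Or.inr (Or.inr ⟨trivial, h⟩))⟩
  · simp only [mem_singleton]
    constructor
    · rintro ⟨-, h | h | h | h⟩
      · exact h
      · exact h
      · exact absurd h.1 h2
      · exact absurd h.1 h3
    · intro h
      exact ⟨fun h' => hσ' x (by rw [← h, ← h']), Or.inl h⟩

/-- the reference graph -/
lemma exists_ref2 (k : ℕ) (hk : 2 ≤ k) (hV : Fintype.card V = 2 * k) :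
    ∃ H1 : SimpleGraph V, (∀ x, (H1.neighborFinset x).card = 1 ∨ (H1.neighborFinset x).card = 2) ∧
      (univ.filter fun x => (H1.neighborFinset x).card = 2).card = 2 ∧ (Qset H1).card = 0 := by
  have e : V ≃ Fin k × Bool := Fintype.equivOfCardEq (by
    rw [hV, Fintype.card_prod, Fintype.card_fin, Fintype.card_bool]; ring)
  set σ : V → V := fun x => e.symm ((e x).1, !(e x).2) with hσdef
  have hσ : ∀ x, σ (σ x) = x := by
    intro x
    simp only [hσdef, Equiv.apply_symm_apply, Bool.not_not, Prod.mk.eta, Equiv.symm_apply_apply]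
  have hσ' : ∀ x, σ x ≠ x := by
    intro x h
    have h1 : e (σ x) = e x := by rw [h]
    simp only [hσdef, Equiv.apply_symm_apply] at h1
    have h2 := congrArg Prod.snd h1
    simp at h2
  set p : V := e.symm (⟨0, by omega⟩, false) with hp
  set q : V := e.symm (⟨1, by omega⟩, false) with hq
  have hpq : p ≠ q := by
    intro h
    have h1 := e.symm.injective h
    have h2 := congrArg (fun z => z.1.val) h1
    simp at h2
  have hσpq : σ p ≠ q := by
    intro h
    have h1 := e.symm.injective h
    have h2 := congrArg (fun z => z.1.val) h1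
    simp [hp] at h2
  have hσqp : σ q ≠ p := by
    intro h
    exact hσpq (by rw [← h, hσ])
  have hnbr := matchGraph_nbr σ hσ hσ' p q hpq
  have hcard : ∀ x, ((matchGraph σ p q).neighborFinset x).card =
      if x = p ∨ x = q then 2 else 1 := by
    intro x
    rw [hnbr x]
    by_cases h1 : x = p
    · rw [if_pos h1, if_pos (Or.inl h1), h1, Finset.card_pair hσpq]
    · by_cases h2 : x = q
      · rw [if_neg h1, if_pos h2, if_pos (Or.inr h2), h2, Finset.card_pair hσqp]
      · rw [if_neg h1, if_neg h2, if_neg (by tauto), Finset.card_singleton]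
  have hD : (univ.filter fun x => ((matchGraph σ p q).neighborFinset x).card = 2) = {p, q} := by
    ext x
    simp only [mem_filter, mem_univ, true_and, mem_insert, mem_singleton]
    rw [hcard x]
    split_ifs with h
    · simp [h]
    · simp [h]
  have hN : (univ.filter fun x => ((matchGraph σ p q).neighborFinset x).card = 2).card = 2 := by
    rw [hD, Finset.card_pair hpq]
  have h12 : ∀ x, ((matchGraph σ p q).neighborFinset x).card = 1 ∨
      ((matchGraph σ p q).neighborFinset x).card = 2 := by
    intro x
    rw [hcard x]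
    split_ifs <;> simp
  refine ⟨matchGraph σ p q, h12, hN, ?_⟩
  have h1 := Qset_count (H := matchGraph σ p q) (fun x => by rcases h12 x with h | h <;> omega) 2 hN
  rw [hD, Finset.sum_pair hpq] at h1
  have h2 : 1 ≤ (((matchGraph σ p q).neighborFinset p).filter fun y =>
      ((matchGraph σ p q).neighborFinset y).card = 2).card := by
    rw [Nat.one_le_iff_ne_zero, ← Nat.pos_iff_ne_zero, Finset.card_pos]
    exact ⟨q, by rw [mem_filter, hnbr p, if_pos rfl, hcard q, if_pos (Or.inr rfl)]; simp⟩
  have h3 : 1 ≤ (((matchGraph σ p q).neighborFinset q).filter fun y =>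
      ((matchGraph σ p q).neighborFinset y).card = 2).card := by
    rw [Nat.one_le_iff_ne_zero, ← Nat.pos_iff_ne_zero, Finset.card_pos]
    exact ⟨p, by
      rw [mem_filter, hnbr q, if_neg hpq.symm, if_pos rfl, hcard p, if_pos (Or.inl rfl)]; simp⟩
  omega

/-- structural conclusion from optimality near `p = 1`, two vertices of degree two -/
theorem struct2 {E : Finset (Sym2 V)} {H : SimpleGraph V} (hco : IsCo E H)
    (hn6 : 6 ≤ Fintype.card V)
    (hcH : 2 * H.edgeFinset.card = Fintype.card V + 2)
    (hopt : ∀ E' : Finset (Sym2 V), (∀ e ∈ E', ¬ e.IsDiag) → E'.card = E.card →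
      ∀ p ∈ Set.Icc (0:ℝ) 1, relE E' p ≤ relE E p) :
    (∀ x, (H.neighborFinset x).card = 1 ∨ (H.neighborFinset x).card = 2) ∧
      (univ.filter fun x => (H.neighborFinset x).card = 2).card = 2 ∧ (Qset H).card = 0 := by
  set n := Fintype.card V with hn
  obtain ⟨k, hk⟩ : ∃ k, n = 2 * k := ⟨n / 2, by omega⟩
  obtain ⟨H1, h12, hN1, hQ1⟩ := exists_ref2 (V := V) k (by omega) hk
  have hco1 : IsCo H1ᶜ.edgeFinset H1 := by
    intro x y
    rw [mem_edgeFinset, mem_edgeSet, compl_adj]
  set E1 := H1ᶜ.edgeFinset with hE1
  have hdeg1 : ∀ x, (H1.neighborFinset x).card ≤ 2 := by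
    intro x; rcases h12 x with h | h <;> omega
  have hsum1 : 2 * H1.edgeFinset.card = n + 2 := by
    rw [← sum_degrees_eq_twice_card_edges]
    simp_rw [← card_neighborFinset_eq_degree]
    rw [← Finset.sum_filter_add_sum_filter_not univ (fun x => (H1.neighborFinset x).card = 2)]
    have s1 : ∑ x ∈ univ.filter (fun x => (H1.neighborFinset x).card = 2),
        (H1.neighborFinset x).card = 2 * 2 := by
      have : ∑ x ∈ univ.filter (fun x => (H1.neighborFinset x).card = 2),
        (H1.neighborFinset x).card = ∑ x ∈ univ.filter (fun x => (H1.neighborFinset x).card = 2),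
          2 := by
        refine Finset.sum_congr rfl fun x hx => ?_
        simp only [mem_filter, mem_univ, true_and] at hx
        exact hx
      rw [this, Finset.sum_const, hN1, smul_eq_mul]
    have hc' : (univ.filter fun x => ¬ (H1.neighborFinset x).card = 2).card = n - 2 := by
      have := Finset.card_filter_add_card_filter_not (s := (univ : Finset V))
        (fun x => (H1.neighborFinset x).card = 2)
      rw [Finset.card_univ, hN1] at this
      omega
    have s2 : ∑ x ∈ univ.filter (fun x => ¬ (H1.neighborFinset x).card = 2),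
        (H1.neighborFinset x).card = (n - 2) * 1 := by
      rw [← hc', ← smul_eq_mul, ← Finset.sum_const]
      refine Finset.sum_congr rfl fun x hx => ?_
      simp only [mem_filter, mem_univ, true_and] at hx
      rcases h12 x with h | h
      · exact h
      · exact absurd h hx
    rw [s1, s2]
    omega
  have hcard : E.card = E1.card := by
    have t1 := hco.total
    have t2 := hco1.total
    omega
  have hd1 : H1.edgeFinset.card + 2 ≤ Fintype.card V := by omega
  have hlex := fun k h0 => disc_lexi hcard (hopt E1 hco1.nodiag hcard.symm) k h0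
  have hUB := fun j hj => disc_upper hco1 (by omega) hd1 hdeg1 j hj
  -- Step 1
  have z1 : ∀ j, j + 3 < n → (disc E1 j).card = 0 := by
    intro j hj
    have h := hUB j (by omega)
    rw [hQ1] at h
    have : ∑ x, (starSets E1 j x).card = 0 := by
      apply Finset.sum_eq_zero
      intro x _
      rw [starSets_card hco1, if_neg]
      have := hdeg1 x
      omega
    split_ifs at h <;> omega
  have z : ∀ j, j + 3 < n → (disc E j).card = 0 := by
    intro j
    induction j using Nat.strong_induction_on with
    | _ j ih =>
      intro hj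
      have := hlex j (fun i hi => by rw [ih i hi (by omega), z1 i (by omega)])
      rw [z1 j hj] at this
      omega
  -- Step 2
  have hdeg : ∀ x, (H.neighborFinset x).card ≤ 2 := by
    intro x
    by_contra hcon
    push Not at hcon
    have h1 := hco.card_bd_single x
    have h2 := disc_of_bd (E := E) (by omega) x
    have h3 := z (bd E {x}).card (by omega)
    omega
  -- Step 3
  have hle : (univ.filter fun x => (H.neighborFinset x).card = 2).card ≤ 2 := by
    have h1 := hlex (n - 3) (fun i hi => by rw [z i (by omega), z1 i (by omega)])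
    have h2 := hUB (n - 3) (by omega)
    rw [if_neg (by omega), sum_star_eq hco1 (n - 3) 2 h12 hN1, if_pos (by omega),
      if_neg (by omega)] at h2
    have e1 : n - 3 - (n - 1 - 2) = 0 := by omega
    rw [e1, Nat.choose_zero_right] at h2
    have h3 := disc_lower hco (by omega) hdeg (n - 3) (by omega) (fun h => by omega)
    rw [if_neg (by omega)] at h3
    have h4 : (univ.filter fun x => (H.neighborFinset x).card = 2).card
        ≤ ∑ x, (starSets E (n - 3) x).card := by
      rw [Finset.card_filter]
      refine Finset.sum_le_sum fun x _ => ?_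
      split_ifs with h5
      · rw [starSets_card hco, if_pos (by omega), h5]
        have e2 : n - 3 - (Fintype.card V - 1 - 2) = 0 := by omega
        rw [e2, Nat.choose_zero_right]
      · exact Nat.zero_le _
    omega
  have hsum : ∑ x, (H.neighborFinset x).card = n + 2 := by
    rw [← hcH, ← sum_degrees_eq_twice_card_edges]
    simp_rw [card_neighborFinset_eq_degree]
  have hpt : ∀ x ∈ (univ : Finset V), (H.neighborFinset x).card
      ≤ 1 + (if (H.neighborFinset x).card = 2 then 1 else 0) := by
    intro x _
    have := hdeg x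
    split_ifs <;> omega
  have hsum2 : ∑ x, (1 + (if (H.neighborFinset x).card = 2 then 1 else 0))
      = n + (univ.filter fun x => (H.neighborFinset x).card = 2).card := by
    rw [Finset.sum_add_distrib, Finset.card_filter]
    simp [hn]
  have hN2 : (univ.filter fun x => (H.neighborFinset x).card = 2).card = 2 := by
    have := Finset.sum_le_sum hpt
    omega
  have heq : ∀ x ∈ (univ : Finset V), (H.neighborFinset x).card
      = 1 + (if (H.neighborFinset x).card = 2 then 1 else 0) := by
    rw [← Finset.sum_eq_sum_iff_of_le hpt]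
    omega
  have hH12 : ∀ x, (H.neighborFinset x).card = 1 ∨ (H.neighborFinset x).card = 2 := by
    intro x
    have := heq x (Finset.mem_univ _)
    by_cases h : (H.neighborFinset x).card = 2
    · exact Or.inr h
    · rw [if_neg h] at this
      exact Or.inl this
  have c0 := Qset_count hdeg 2 hN2
  have hQle : (Qset H).card ≤ 1 := by omega
  -- Step 4
  have hstar : ∀ j, ∑ x, (starSets E j x).card = ∑ x, (starSets E1 j x).card := by
    intro j
    rw [sum_star_eq hco j 2 hH12 hN2, sum_star_eq hco1 j 2 h12 hN1, hcard]
  have heqd : ∀ j, j + 8 < 2 * n → (disc E j).card = (disc E1 j).card := by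
    intro j
    induction j using Nat.strong_induction_on with
    | _ j ih =>
      intro hj
      have h1 := hlex j (fun i hi => ih i hi (by omega))
      have h2 := hUB j (by omega)
      have h3 := disc_lower hco (by omega) hdeg j (by omega) (fun h => by omega)
      rw [if_neg (by omega)] at h2 h3
      have := hstar j
      omega
  -- Step 5
  have h1 := hlex (2 * n - 8) (fun i hi => heqd i (by omega))
  have h2 := hUB (2 * n - 8) (by omega)
  have h3 := disc_lower hco (by omega) hdeg (2 * n - 8) (by omega) (fun _ => Or.inr hQle)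
  rw [if_pos (by omega)] at h2 h3
  have := hstar (2 * n - 8)
  exact ⟨hH12, hN2, by omega⟩

theorem no_umr2 {E : Finset (Sym2 V)} {H : SimpleGraph V} (hco : IsCo E H)
    (hn6 : 6 ≤ Fintype.card V)
    (hcH : 2 * H.edgeFinset.card = Fintype.card V + 2)
    (hopt : ∀ E' : Finset (Sym2 V), (∀ e ∈ E', ¬ e.IsDiag) → E'.card = E.card →
      ∀ p ∈ Set.Icc (0:ℝ) 1, relE E' p ≤ relE E p) : False := by
  obtain ⟨h12, hN2, hQ⟩ := struct2 hco hn6 hcH hopt
  have hdeg : ∀ x, (H.neighborFinset x).card ≤ 2 := by
    intro x; rcases h12 x with h | h <;> omega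
  have hadj : ∀ x y, H.Adj x y ↔ y ∈ H.neighborFinset x := fun x y => by
    rw [mem_neighborFinset]
  obtain ⟨b, c, hbc, hD⟩ := Finset.card_eq_two.mp hN2
  have memD : ∀ x, (H.neighborFinset x).card = 2 ↔ x = b ∨ x = c := by
    intro x
    have : x ∈ (univ.filter fun x => (H.neighborFinset x).card = 2) ↔ x ∈ ({b, c} : Finset V) := by
      rw [hD]
    simpa using this
  have cb : (H.neighborFinset b).card = 2 := (memD b).2 (Or.inl rfl)
  have cc : (H.neighborFinset c).card = 2 := (memD c).2 (Or.inr rfl)
  -- `b` and `c` are adjacent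
  have Abc : H.Adj b c := by
    by_contra hcon
    have h1 : ({b, c} : Finset V) ∈ Qset H := by
      simp only [Qset, mem_filter, mem_powersetCard, subset_univ, true_and]
      refine ⟨Finset.card_pair hbc, ?_⟩
      rw [card_bdH_pair_eq_four_iff H hdeg hbc]
      exact ⟨cb, cc, hcon⟩
    rw [Finset.card_eq_zero] at hQ
    rw [hQ] at h1
    simp at h1
  obtain ⟨a, hca, hb⟩ := other_nbr b c Abc cb
  obtain ⟨d, hbd, hc⟩ := other_nbr c b Abc.symm cc
  have Aba : H.Adj b a := by rw [hadj, hb]; simp
  have Acd : H.Adj c d := by rw [hadj, hc]; simp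
  have leaf : ∀ x y, x ≠ b → x ≠ c → H.Adj x y → H.neighborFinset x = {y} := by
    intro x y h1 h2 h3
    have h4 : (H.neighborFinset x).card = 1 := by
      rcases h12 x with h | h
      · exact h
      · rcases (memD x).1 h with h | h
        · exact absurd h h1
        · exact absurd h h2
    obtain ⟨w, hw⟩ := Finset.card_eq_one.mp h4
    have : y ∈ H.neighborFinset x := by rw [← hadj]; exact h3
    rw [hw, mem_singleton] at this
    rw [hw, this]
  have ha := leaf a b Aba.ne.symm hca.symm Aba.symm
  have hd := leaf d c hbd.symm Acd.ne.symm Acd.symm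
  -- another edge
  obtain ⟨e, he'⟩ : ∃ e, e ∉ ({a, b, c, d} : Finset V) := by
    by_contra hcon
    push Not at hcon
    have h1 : (univ : Finset V) ⊆ {a, b, c, d} := fun x _ => hcon x
    have h2 := Finset.card_le_card h1
    rw [Finset.card_univ] at h2
    have h3 := Finset.card_le_four (a := a) (b := b) (c := c) (d := d)
    omega
  simp only [mem_insert, mem_singleton, not_or] at he'
  obtain ⟨hea, heb, hec, hed⟩ := he'
  obtain ⟨f, hf'⟩ : ∃ f, H.Adj e f := by
    have h1 : 0 < (H.neighborFinset e).card := by rcases h12 e with h | h <;> omega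
    obtain ⟨f, hf⟩ := Finset.card_pos.mp h1
    exact ⟨f, (hadj e f).2 hf⟩
  have he := leaf e f heb hec hf'
  have hfb : f ≠ b := by
    rintro rfl
    have := hf'.symm
    rw [hadj, hb] at this
    simp only [mem_insert, mem_singleton] at this
    rcases this with h | h
    · exact hec h
    · exact hea h
  have hfc : f ≠ c := by
    rintro rfl
    have := hf'.symm
    rw [hadj, hc] at this
    simp only [mem_insert, mem_singleton] at this
    rcases this with h | h
    · exact heb h
    · exact hed h
  have hf := leaf f e hfb hfc hf'.symm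
  have key := tree_ineq2 H E hco hn6 hdeg a b c d e f ha (by rw [hb, Finset.pair_comm]) hc hd he hf
    hca.symm hbd (Ne.symm hea) (Ne.symm hed)
  -- contradiction
  have hde : s(d, e) ∈ E := by
    rw [hco, hadj, hd]
    simp only [mem_singleton]
    exact ⟨Ne.symm hed, hec⟩
  have hcd : s(c, d) ∉ E.erase s(d, e) := by
    intro h
    have := Finset.mem_of_mem_erase h
    rw [hco] at this
    exact this.2 Acd
  have hEcard : 0 < E.card := Finset.card_pos.mpr ⟨_, hde⟩
  have hc' : (insert s(c, d) (E.erase s(d, e))).card = E.card := by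
    rw [Finset.card_insert_of_notMem hcd, Finset.card_erase_of_mem hde]
    omega
  have hnd : ∀ e' ∈ insert s(c, d) (E.erase s(d, e)), ¬ e'.IsDiag := by
    intro e' he'
    rcases Finset.mem_insert.mp he' with rfl | h
    · simpa using Acd.ne
    · exact hco.nodiag e' (Finset.mem_of_mem_erase h)
  have := trees_le hco.nodiag hnd hc'.symm (hopt _ hnd hc')
  omega

end Pool.Agent.W_MP_d15038_co
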